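import Pool.Agent.Helper6K1.ZM.PDT

/-!
For a Poincaré duality group of dimension `n ≤ 2 i + 1` the homology with coefficients in the reduced
group C*-algebra vanishes if it vanishes in the degrees `≤ i`.
-/

set_option autoImplicit false
set_option linter.unusedSectionVars false

open scoped Matrix

namespace Pool.Agent.Helper6K1.ZM

open Pool.Agent.H919R4.ZS MonoidAlgebra Pool.Agent.TH38.ZT Pool.Agent.R807.ZK

noncomputable section

/-- A Poincaré duality group of dimension `n`, orientable or not: `H^k(B; ℤ[B]) = 0` for `k ≠ n`, and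
`H^n(B; ℤ[B])` is infinite cyclic. -/
def IsPD {B : Type} [Group B] (Y : FinRes B) (n : ℕ) : Prop :=
  (∀ k, k ≠ n → Subsingleton (Y.cohomology k)) ∧ Nonempty (Y.cohomology n ≃+ ℤ)

variable {B : Type} [Group B]

theorem pd_half_gen {S : Type*} [Ring S] (ψ : MonoidAlgebra ℤ B →+* S) (Y : FinRes B) {n i : ℕ}
    (hY : IsPD Y n) (hn : n ≤ 2 * i + 1)
    (hanti : ∀ w : B →* ℤ, ∃ τ : S → S, (∀ x y, τ (x + y) = τ x + τ y) ∧
      (∀ x y, τ (x * y) = τ y * τ x) ∧ τ 1 = 1 ∧ ∀ a, τ (ψ a) = ψ (tw w a))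
    (h : ∀ j ≤ i, ExAt Y ψ j) (j : ℕ) : ExAt Y ψ j := by
  obtain ⟨hc, he⟩ := hY
  obtain ⟨w, x, hx, h1, h2, h3⟩ := exists_data Y n he
  obtain ⟨haug, θ, t1, t2, t3, t4⟩ := exists_theta Y w (fun k hk => hc k (by omega)) x hx h1 h2 h3
  obtain ⟨F, K, H, hF, hK, hH⟩ := exists_equiv Y w hc x haug θ t1 t2 t3 t4
  obtain ⟨τ, τ1, τ2, τ3, τ4⟩ := hanti w
  obtain ⟨s, hs0, hs⟩ := contraction' Y ψ i h
  let τA : S →+ S := AddMonoidHom.mk' τ τ1
  have ha : ∀ k, anti τA ((Y.d k).map ψ) = (cd Y w k).map ψ := by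
    intro k
    refine Matrix.ext fun a b => ?_
    exact τ4 (Y.d k b a)
  have m : ∀ {a b c : ℕ} (M : Matrix (Fin a) (Fin b) (MonoidAlgebra ℤ B))
      (N : Matrix (Fin b) (Fin c) (MonoidAlgebra ℤ B)), (M * N).map ψ = M.map ψ * N.map ψ :=
    fun M N => Matrix.map_mul
  -- the dual complex is exact in the degrees up to `i`
  have d0 : ∀ v : Fin (Y.n 0) → S, v ᵥ* (cd Y w 0).map ψ = 0 → v = 0 := by
    intro v hv
    have e := congrArg (anti τA) hs0
    rw [anti_mul τA τ2, anti_one τA τ3, ha] at e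
    rw [← Matrix.vecMul_one v, ← e, ← Matrix.vecMul_vecMul, hv, Matrix.zero_vecMul]
  have dS : ∀ k, k + 1 ≤ i → ∀ v : Fin (Y.n (k + 1)) → S,
      v ᵥ* (cd Y w (k + 1)).map ψ = 0 → ∃ u, u ᵥ* (cd Y w k).map ψ = v := by
    intro k hk v hv
    have e := congrArg (anti τA) (hs k hk)
    rw [anti_add, anti_mul τA τ2, anti_mul τA τ2, anti_one τA τ3, ha, ha] at e
    refine ⟨v ᵥ* anti τA (s k), ?_⟩
    rw [Matrix.vecMul_vecMul]
    calc v ᵥ* (anti τA (s k) * (cd Y w k).map ψ)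
        = v ᵥ* (anti τA (s k) * (cd Y w k).map ψ) +
          v ᵥ* ((cd Y w (k + 1)).map ψ * anti τA (s (k + 1))) := by
          rw [← Matrix.vecMul_vecMul v ((cd Y w (k + 1)).map ψ), hv, Matrix.zero_vecMul, add_zero]
      _ = v := by rw [← Matrix.vecMul_add, e, Matrix.vecMul_one]
  rcases Nat.lt_or_ge i j with hj | hj
  swap
  · exact h j hj
  obtain ⟨l, rfl⟩ : ∃ l, j = l + 1 := ⟨j - 1, by omega⟩
  intro v hv
  -- the homotopy over `C*_r(B)`
  have hv2 : v ᵥ* ((Y.d l).map ψ * (H l).map ψ) = 0 := by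
    rw [← Matrix.vecMul_vecMul, hv, Matrix.zero_vecMul]
  have hH' := congrArg (fun M => Matrix.map M ψ) (hH l)
  rw [Matrix.map_sub _ (map_sub ψ), Matrix.map_add _ (map_add ψ), m, m, map_one_mat] at hH'
  by_cases hln : l + 1 ≤ n
  · rw [if_pos hln, m] at hH'
    have hfin : ∃ y, y ᵥ* (Y.d (l + 1)).map ψ =
        v ᵥ* ((F (l + 1) (n - (l + 1))).map ψ * (K (l + 1) (n - (l + 1))).map ψ) := by
      obtain ⟨k, hk⟩ : ∃ k, n = l + k + 1 := ⟨n - l - 1, by omega⟩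
      have e1 : n - (l + 1) = k := by omega
      rw [e1]
      have hcoc : (v ᵥ* (F (l + 1) k).map ψ) ᵥ* (cd Y w k).map ψ = 0 := by
        rw [Matrix.vecMul_vecMul, ← m, ← hF l k (by omega), m, ← Matrix.vecMul_vecMul, hv,
          Matrix.zero_vecMul]
      cases k with
      | zero =>
        refine ⟨0, ?_⟩
        rw [Matrix.zero_vecMul, ← Matrix.vecMul_vecMul, d0 _ hcoc, Matrix.zero_vecMul]
      | succ k =>
        obtain ⟨u, hu⟩ := dS k (by omega) _ hcoc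
        refine ⟨u ᵥ* (K (l + 2) k).map ψ, ?_⟩
        rw [Matrix.vecMul_vecMul, ← m, ← hK (l + 1) k (by omega), m, ← Matrix.vecMul_vecMul, hu,
          Matrix.vecMul_vecMul]
    obtain ⟨y, hy⟩ := hfin
    refine ⟨y - v ᵥ* (H (l + 1)).map ψ, ?_⟩
    have e2 := congrArg (fun M => v ᵥ* M) hH'
    rw [Matrix.vecMul_sub, Matrix.vecMul_one, Matrix.vecMul_add, hv2, zero_add] at e2
    rw [Matrix.sub_vecMul, hy, Matrix.vecMul_vecMul, ← e2, sub_sub_cancel]
  · rw [if_neg hln] at hH'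
    refine ⟨-(v ᵥ* (H (l + 1)).map ψ), ?_⟩
    have e2 := congrArg (fun M => v ᵥ* M) hH'
    have e3 : (0 : Matrix (Fin (Y.n (l + 1))) (Fin (Y.n (l + 1))) (MonoidAlgebra ℤ B)).map ψ = 0 := by
      refine Matrix.ext fun a b => ?_
      exact map_zero ψ
    rw [e3, Matrix.vecMul_sub, Matrix.vecMul_one, Matrix.vecMul_add, hv2, zero_add,
      Matrix.vecMul_zero, zero_sub] at e2
    rw [Matrix.neg_vecMul, Matrix.vecMul_vecMul, ← e2, neg_neg]

theorem pd_half (Y : FinRes B) {n i : ℕ} (hY : IsPD Y n) (hn : n ≤ 2 * i + 1)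
    (h : ∀ j ≤ i, Subsingleton (Y.homology (toRed B) j)) (j : ℕ) :
    Subsingleton (Y.homology (toRed B) j) :=
  (exAt_iff Y _ j).1 (pd_half_gen (toRed B) Y hY hn exists_anti
    (fun j hj => (exAt_iff Y _ j).2 (h j hj)) j)

end

end Pool.Agent.Helper6K1.ZM
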