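import Pool.Agent.Helper6K1.ZM.Main
import Pool.Agent.Helper6K1.ZM.Half
import Pool.Agent.TH38.ZT.Trace
import Pool.Agent.N453.ZS.Main
import Pool.Agent.N453.ZS.Tor

/-!
Bundles with amenable fibre groups over towers: the conclusion.
-/

set_option autoImplicit false
set_option linter.unusedSectionVars false

open scoped Matrix

namespace Pool.Agent.Helper6K1.ZM

open Pool.Agent.H919R4.ZS MonoidAlgebra Pool.Agent.TH38.ZT Pool.Agent.R807.ZK
open Pool.Agent.H496R3.ZS (IsAmenable)
open Pool.Agent.N453.ZS (PolyZ)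

noncomputable section

/-- Poincaré duality groups of dimension at most three -/
theorem pd_three {B : Type} [Group B] (Y : FinRes B) {n : ℕ} (hY : IsPD Y n) (hn : n ≤ 3) :
    ∃ k ≤ 2, Nontrivial (Y.homology (toRed B) k) := by
  have h0 : ∀ k < n, Subsingleton (Y.cohomology k) := fun k hk => hY.1 k (by omega)
  have h1 := hY.2
  rcases Nat.lt_or_ge n 3 with h2 | h2
  · exact Pool.Agent.N453.ZS.main Y n h0 h1 ⊥ 0 PolyZ.bot (by omega)
  · rcases subsingleton_or_nontrivial B with hG | hG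
    · exact Pool.Agent.N453.ZS.finite_case Y (D := ⊥) Pool.Agent.N453.ZS.amenable_bot inferInstance
    · obtain ⟨g, hg⟩ := exists_ne (1 : B)
      refine Pool.Agent.N453.ZS.main Y n h0 h1 _ 1 (PolyZ.step g PolyZ.bot ?_ ?_) (by omega)
      · exact (Subgroup.mem_normalizer_iff).2 fun h => by
          rw [Subgroup.mem_bot, Subgroup.mem_bot]
          constructor
          · rintro rfl; simp
          · intro h3
            rw [mul_inv_eq_one] at h3
            exact mul_eq_left.1 h3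
      · intro m hm
        exact Pool.Agent.N453.ZS.zpow_ne_one Y hg m (Subgroup.mem_bot.1 hm)

/-- The conditions on the base: `Y` is a finite free resolution of `ℤ` over `ℤ[B]`, and one of the
following holds.
* `H_k(B; C*_r(B)) ≠ 0` for some `k ≤ i`.
* The length of `Y` is at most two, or `H^k(B; ℤ[B]) ≠ 0` for some `k ≤ 2`.
* `B` is a Poincaré duality group of dimension `n ≤ 2 i + 1` (for instance the fundamental group of a
  closed aspherical manifold of dimension `n`), and `n ≤ 3`, or the Euler characteristic of `B` is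
  not zero, or `H_k(B; C*_r(B)) ≠ 0` for some `k`. -/
def GoodBase {B : Type} [Group B] (Y : FinRes B) (i : ℕ) : Prop :=
  (∃ k ≤ i, Nontrivial (Y.homology (toRed B) k)) ∨
  (Y.len ≤ 2 ∨ ∃ k ≤ 2, Nontrivial (Y.cohomology k)) ∨
  ∃ n ≤ 2 * i + 1, IsPD Y n ∧
    (n ≤ 3 ∨ euler Y ≠ 0 ∨ ∃ k, Nontrivial (Y.homology (toRed B) k))

theorem GoodBase.exists_le {B : Type} [Group B] {Y : FinRes B} {i : ℕ} (hi : 2 ≤ i)
    (h : GoodBase Y i) : ∃ k ≤ i, Nontrivial (Y.homology (toRed B) k) := by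
  rcases h with h | h | ⟨n, hn, hPD, h⟩
  · exact h
  · obtain ⟨k, hk, hk'⟩ := Pool.Agent.H919R4.ZS.main Y h
    exact ⟨k, hk.trans hi, hk'⟩
  · have h2 : (∃ k, Nontrivial (Y.homology (toRed B) k)) →
        ∃ k ≤ i, Nontrivial (Y.homology (toRed B) k) := by
      rintro ⟨k, hk⟩
      by_contra hcon
      push Not at hcon
      exact not_nontrivial_iff_subsingleton.2 (pd_half Y hPD hn
        (fun j hj => hcon j hj) k) hk
    rcases h with h | h | h
    · obtain ⟨k, hk, hk'⟩ := pd_three Y hPD h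
      exact ⟨k, hk.trans hi, hk'⟩
    · obtain ⟨k, hk, hk'⟩ := exists_of_euler Y h
      exact h2 ⟨k, hk'⟩
    · exact h2 h

theorem conclusion {G : Type} [Group G] (N : Subgroup G) [N.Normal] (hN : IsAmenable N)
    (B : Type) [Group B] (hB : Tower (G ⧸ N) B) (Y : FinRes B) (i : ℕ) (hi : 2 ≤ i)
    (hY : GoodBase Y i) (X : FinRes G)
    (h0 : ∀ q, 1 ≤ q → q + 1 < i → Subsingleton (X.homology (toRat N) q))
    (h1 : FinDim X (toRat N) (i - 1)) :
    ∃ j ≤ i, Nontrivial (X.homology (toRed G) j) := by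
  obtain ⟨k, hk, hk'⟩ := hY.exists_le hi
  obtain ⟨⟨W⟩, h2⟩ := Pool.Agent.TH38.ZT.tower hB Y
  obtain ⟨l, hl, hl'⟩ : ∃ l ≤ k, Nontrivial (W.homology (toRed (G ⧸ N)) l) := by
    by_contra hcon
    push Not at hcon
    exact not_nontrivial_iff_subsingleton.2 (h2 W k hcon k le_rfl) hk'
  obtain ⟨j, hj, hj'⟩ := extension' N hN X W l hl' (fun q h3 h4 => h0 q h3 (by omega))
    (fun q h3 h4 => by
      rcases Nat.lt_or_ge (q + 1) i with h5 | h5
      · refine ⟨0, fun i => i.elim0, fun z hz => ⟨fun i => i.elim0, ?_⟩⟩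
        rw [Finset.univ_eq_empty, Finset.sum_empty, sub_zero]
        obtain ⟨t, rfl⟩ : ∃ t, q = t + 1 := ⟨q - 1, by omega⟩
        obtain ⟨y, hy⟩ := (exAt_iff X _ (t + 1)).2 (h0 (t + 1) h3 h5) z hz
        exact ⟨y, hy⟩
      · have h6 : q = i - 1 := by omega
        subst h6
        exact h1)
  exact ⟨j, hj.trans (hl.trans hk), hj'⟩

end

end Pool.Agent.Helper6K1.ZM
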