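import Pool.Agent.Helper6K1.ZM.Lim

/-!
Left ideals of finite codimension in the complex group ring of a nonamenable group generate the
reduced group C*-algebra as a left ideal: the conclusion.
-/

set_option autoImplicit false
set_option linter.unusedSectionVars false

open scoped Matrix ENNReal InnerProductSpace
open Filter Topology

namespace Pool.Agent.Helper6K1.ZM

open Pool.Agent.H496R3.ZS (Ell dl dl_apply permIso orthonormal_dl)
open Pool.Agent.H919R4.ZS
open Pool.Agent.TH38.ZT
open MonoidAlgebra (single)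

noncomputable section

variable {G : Type} [Group G] {D : Type} {U : Ultrafilter D} {ξ : D → L2 G}
  {h : MonoidAlgebra ℂ G → MonoidAlgebra ℂ G → ℂ}

section rep

variable (hh : IsForm U ξ h) (hξ : ∀ d, ‖ξ d‖ = 1) {n : ℕ} (u : Fin n → MonoidAlgebra ℂ G)
  (hu : ∀ i j, h (u i) (u j) = if i = j then 1 else 0)
  (hF : ∀ a, Null U ξ (a - ∑ i, h (u i) a • u i))

/-- the matrix of `g` -/
def rho (h : MonoidAlgebra ℂ G → MonoidAlgebra ℂ G → ℂ) (u : Fin n → MonoidAlgebra ℂ G) (g : G)
    (i j : Fin n) : ℂ := h (u i) (single g 1 * u j)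

include hh hξ hF

lemma rho_mul (g k : G) (i j : Fin n) :
    rho h u (g * k) i j = ∑ m, rho h u g i m * rho h u k m j := by
  have h1 := (hF (single k 1 * u j)).mul (single g (1 : ℂ))
  have h2 := form_null hh (u i) h1 hξ
  rw [mul_sub, form_sub hh, sub_eq_zero, ← mul_assoc, MonoidAlgebra.single_mul_single, mul_one,
    Finset.mul_sum, form_sum hh] at h2
  refine h2.trans (Finset.sum_congr rfl fun m _ => ?_)
  rw [mul_smul_comm, form_smul hh, mul_comm]
  rfl

omit hF hξ in
include hu in
lemma rho_one (i j : Fin n) : rho h u (1 : G) i j = if i = j then 1 else 0 := by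
  rw [rho, ← MonoidAlgebra.one_def, one_mul, hu]

omit hF hξ in
lemma rho_inv (g : G) (i j : Fin n) :
    rho h u g⁻¹ i j = (starRingEnd ℂ) (rho h u g j i) := by
  have h1 : rho h u g⁻¹ i j = h (single g 1 * u i) (u j) := by
    refine tendsto_nhds_unique (hh (u i) (single g⁻¹ 1 * u j)) ?_
    refine (hh (single g 1 * u i) (u j)).congr fun d => ?_
    rw [map_mul, map_mul, LC_single, LC_single, one_smul, one_smul]
    change ⟪lregL g (LC (u i) (ξ d)), LC (u j) (ξ d)⟫_ℂ = ⟪LC (u i) (ξ d), lregL g⁻¹ (LC (u j) (ξ d))⟫_ℂ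
    rw [← inner_lregL_inv, inv_inv]
  rw [h1, form_symm hh]
  rfl

include hu

lemma rho_unit (g : G) (i j : Fin n) :
    ∑ m, rho h u g i m * (starRingEnd ℂ) (rho h u g j m) = if i = j then 1 else 0 := by
  rw [← rho_one hh u hu i j, ← mul_inv_cancel g, rho_mul hh hξ u hF]
  exact Finset.sum_congr rfl fun m _ => by rw [rho_inv hh]

lemma rho_le (g : G) (i j : Fin n) : ‖rho h u g i j‖ ≤ 1 := by
  have h1 := rho_unit hh hξ u hu hF g i i
  rw [if_pos rfl] at h1
  have h2 : ∑ m, ‖rho h u g i m‖ ^ 2 = 1 := by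
    have h3 : ((∑ m, ‖rho h u g i m‖ ^ 2 : ℝ) : ℂ) = 1 := by
      rw [← h1]
      push_cast
      refine Finset.sum_congr rfl fun m _ => ?_
      rw [Complex.mul_conj, Complex.normSq_eq_norm_sq]
      push_cast
      rfl
    exact_mod_cast h3
  have h4 : ‖rho h u g i j‖ ^ 2 ≤ 1 := by
    rw [← h2]
    exact Finset.single_le_sum (f := fun m => ‖rho h u g i m‖ ^ 2) (fun _ _ => by positivity)
      (Finset.mem_univ j)
  nlinarith [norm_nonneg (rho h u g i j)]

/-- the untwisted vectors -/
def eta (d : D) (l : Fin n) : L2 G :=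
  ∑ j, mulB (fun q => rho h u q j l) (fun q => rho_le hh hξ u hu hF q j l) (LC (u j) (ξ d))

lemma eta_apply (d : D) (l : Fin n) (q : G) :
    eta hh hξ u hu hF d l q = ∑ j, rho h u q j l * (LC (u j) (ξ d) : L2 G) q := by
  rw [eta, lp.coeFn_sum, Finset.sum_apply]
  rfl

omit hu hξ in
lemma null_e (g : G) (m : Fin n) :
    Null U ξ (u m - ∑ j, rho h u g⁻¹ j m • (single g 1 * u j)) := by
  have h1 := (hF (single g⁻¹ 1 * u m)).mul (single g (1 : ℂ))
  rw [mul_sub, ← mul_assoc, MonoidAlgebra.single_mul_single, mul_one, mul_inv_cancel,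
    ← MonoidAlgebra.one_def, one_mul, Finset.mul_sum] at h1
  have h2 : ∑ j, rho h u g⁻¹ j m • (single g 1 * u j) =
      ∑ i, single g (1 : ℂ) * h (u i) (single g⁻¹ 1 * u m) • u i :=
    Finset.sum_congr rfl fun i _ => by rw [mul_smul_comm]; rfl
  rw [h2]
  exact h1

lemma eta_sub (d : D) (l : Fin n) (g : G) :
    eta hh hξ u hu hF d l - lregL g (eta hh hξ u hu hF d l) =
      ∑ m, mulB (fun q => rho h u q m l) (fun q => rho_le hh hξ u hu hF q m l)
        (LC (u m - ∑ j, rho h u g⁻¹ j m • (single g 1 * u j)) (ξ d)) := by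
  ext q
  rw [lp.coeFn_sub, Pi.sub_apply, lregL_apply, eta_apply, eta_apply, lp.coeFn_sum, Finset.sum_apply]
  have h1 : ∀ m, (mulB (fun q => rho h u q m l) (fun q => rho_le hh hξ u hu hF q m l)
        (LC (u m - ∑ j, rho h u g⁻¹ j m • (single g 1 * u j)) (ξ d)) : L2 G) q =
      rho h u q m l * ((LC (u m) (ξ d) : L2 G) q -
        ∑ j, rho h u g⁻¹ j m * (LC (u j) (ξ d) : L2 G) (g⁻¹ * q)) := by
    intro m
    rw [mulB_apply]
    congr 1
    rw [map_sub, map_sum, sub_apply, lp.coeFn_sub, Pi.sub_apply]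
    congr 1
    rw [sum_apply, lp.coeFn_sum, Finset.sum_apply]
    refine Finset.sum_congr rfl fun j _ => ?_
    rw [map_smul, map_mul, LC_single, one_smul]
    rfl
  rw [Finset.sum_congr rfl fun m _ => h1 m]
  simp only [mul_sub, Finset.sum_sub_distrib]
  congr 1
  simp only [Finset.mul_sum]
  rw [Finset.sum_comm]
  refine Finset.sum_congr rfl fun j _ => ?_
  rw [rho_mul hh hξ u hF, Finset.sum_mul]
  exact Finset.sum_congr rfl fun m _ => by ring

lemma eta_sub_tendsto (l : Fin n) (g : G) :
    Tendsto (fun d => eta hh hξ u hu hF d l - lregL g (eta hh hξ u hu hF d l)) U (𝓝 0) := by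
  simp only [eta_sub]
  have h1 : ∀ m, Tendsto (fun d => mulB (fun q => rho h u q m l)
      (fun q => rho_le hh hξ u hu hF q m l)
        (LC (u m - ∑ j, rho h u g⁻¹ j m • (single g 1 * u j)) (ξ d))) U (𝓝 0) := by
    intro m
    have := ((mulB (fun q => rho h u q m l)
      (fun q => rho_le hh hξ u hu hF q m l)).continuous.tendsto 0).comp (null_e hh u hF g m)
    rwa [map_zero] at this
  have h2 := tendsto_finsetSum Finset.univ fun m _ => h1 m
  rwa [Finset.sum_const_zero] at h2

/-- nonamenability -/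
lemma eta_tendsto (l : Fin n)
    (hna : (1 : RedC G) ∈ Submodule.span (RedC G)
      (Set.range fun g : G => (1 : RedC G) - toC (single g 1))) :
    Tendsto (fun d => eta hh hξ u hu hF d l) U (𝓝 0) := by
  have key : ∀ r ∈ Submodule.span (RedC G) (Set.range fun g : G => (1 : RedC G) - toC (single g 1)),
      Tendsto (fun d => valR r (eta hh hξ u hu hF d l)) U (𝓝 0) := by
    intro r hr
    induction hr using Submodule.span_induction with
    | mem x hx =>
      obtain ⟨g, rfl⟩ := hx
      refine (eta_sub_tendsto hh hξ u hu hF l g).congr fun d => ?_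
      simp only [map_sub, map_one, valR_toC, LC_single, one_smul]
      rfl
    | zero =>
      simp
    | add x y _ _ hx hy =>
      have := hx.add hy
      rw [add_zero] at this
      refine this.congr fun d => ?_
      rw [map_add]
      rfl
    | smul s x _ hx =>
      have := ((valR s).continuous.tendsto 0).comp hx
      rw [map_zero] at this
      refine this.congr fun d => ?_
      rw [smul_eq_mul, map_mul]
      rfl
  refine (key 1 hna).congr fun d => ?_
  rw [map_one]
  rfl

lemma x_eq (d : D) (j : Fin n) : LC (u j) (ξ d) =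
    ∑ l, mulB (fun q => (starRingEnd ℂ) (rho h u q j l))
      (fun q => by rw [RCLike.norm_conj]; exact rho_le hh hξ u hu hF q j l)
      (eta hh hξ u hu hF d l) := by
  ext q
  rw [lp.coeFn_sum, Finset.sum_apply]
  simp only [mulB_apply, eta_apply, Finset.mul_sum]
  rw [Finset.sum_comm]
  have h1 : ∀ m, ∑ l, (starRingEnd ℂ) (rho h u q j l) *
      (rho h u q m l * (LC (u m) (ξ d) : L2 G) q) =
      (if m = j then 1 else 0) * (LC (u m) (ξ d) : L2 G) q := by
    intro m
    rw [← rho_unit hh hξ u hu hF q m j, Finset.sum_mul]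
    exact Finset.sum_congr rfl fun l _ => by ring
  rw [Finset.sum_congr rfl fun m _ => h1 m]
  simp

/-- the contradiction -/
lemma absurd_of (hna : (1 : RedC G) ∈ Submodule.span (RedC G)
      (Set.range fun g : G => (1 : RedC G) - toC (single g 1))) : False := by
  have h1 : ∀ j, Tendsto (fun d => LC (u j) (ξ d)) U (𝓝 0) := by
    intro j
    have h2 : ∀ l, Tendsto (fun d => mulB (fun q => (starRingEnd ℂ) (rho h u q j l))
      (fun q => by rw [RCLike.norm_conj]; exact rho_le hh hξ u hu hF q j l)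
      (eta hh hξ u hu hF d l)) U (𝓝 0) := by
      intro l
      have := ((mulB (fun q => (starRingEnd ℂ) (rho h u q j l))
        (fun q => by rw [RCLike.norm_conj]; exact rho_le hh hξ u hu hF q j l)).continuous.tendsto
          0).comp (eta_tendsto hh hξ u hu hF l hna)
      rwa [map_zero] at this
    have h3 := tendsto_finsetSum Finset.univ fun l _ => h2 l
    rw [Finset.sum_const_zero] at h3
    exact h3.congr fun d => (x_eq hh hξ u hu hF d j).symm
  have h4 : ∀ a, Null U ξ a := by
    intro a
    have h5 := hF a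
    have h6 : Null U ξ (∑ i, h (u i) a • u i) := Null.sum _ _ fun i _ => Null.smul _ (h1 i)
    have h7 := h5.add h6
    rwa [sub_add_cancel] at h7
  have h8 := (tendsto_zero_iff_norm_tendsto_zero.1 (h4 1))
  have h9 : Tendsto (fun _ : D => (1 : ℝ)) U (𝓝 0) := by
    refine h8.congr fun d => ?_
    rw [map_one]
    exact hξ d
  exact one_ne_zero (tendsto_nhds_unique tendsto_const_nhds h9)

end rep

/-- **Left ideals of finite codimension in `ℂ[G]` generate the unit ideal of `C*_r(G)` if `G` is not
amenable.** -/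
theorem one_mem
    (hna : (1 : RedC G) ∈ Submodule.span (RedC G)
      (Set.range fun g : G => (1 : RedC G) - toC (single g 1)))
    (J : Set (MonoidAlgebra ℂ G)) (W : Submodule ℂ (MonoidAlgebra ℂ G)) [FiniteDimensional ℂ W]
    (hW : ∀ a, ∃ w ∈ W, a - w ∈ Submodule.span ℂ J) :
    (1 : RedC G) ∈ Submodule.span (RedC G) (toC '' J) := by
  by_contra hcon
  obtain ⟨D, U, ξ, hξ, hJ⟩ := exists_net J hcon
  obtain ⟨h, hh⟩ := exists_form U ξ hξ
  have hJ' : ∀ a ∈ Submodule.span ℂ J, Null U ξ a := by
    intro a ha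
    induction ha using Submodule.span_induction with
    | mem x hx => exact hJ x hx
    | zero => exact Null.zero
    | add x y _ _ hx hy => exact hx.add hy
    | smul c x _ hx => exact hx.smul c
  have hb := on_bound hh hξ W fun a => by
    obtain ⟨w, hw, hw2⟩ := hW a
    exact ⟨w, hw, hJ' _ hw2⟩
  obtain ⟨n, ⟨u, hu⟩, hmax⟩ : ∃ n, ON h n ∧ ¬ ON h (n + 1) := by
    by_contra hc
    push Not at hc
    have h0 : ∀ n, ON h n := by
      intro n
      induction n with
      | zero => exact ⟨fun i => i.elim0, fun i => i.elim0⟩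
      | succ n ih => exact hc n ih
    have := hb _ (h0 (Module.finrank ℂ W + 1))
    omega
  exact absurd_of hh hξ u hu (on_max hh n u hu hmax) hna

end

end Pool.Agent.Helper6K1.ZM
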