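import Pool.Agent.Helper6K1.ZM.Cod
import Pool.Agent.R807.ZK2

/-!
Descent of acyclicity over the reduced group C*-algebra to the quotient by an amenable normal
subgroup with finite dimensional rational homology in the critical degree.
-/

set_option autoImplicit false
set_option linter.unusedSectionVars false

open scoped Matrix

namespace Pool.Agent.Helper6K1.ZM

open Pool.Agent.H919R4.ZS MonoidAlgebra Pool.Agent.TH38.ZT Pool.Agent.R807.ZK
open Pool.Agent.H496R3.ZS (IsAmenable)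

noncomputable section

/-- a ring homomorphism applied to a product of a vector and a matrix -/
lemma vmap {R S : Type*} [Ring R] [Ring S] (ψ : R →+* S) {a b : ℕ} (w : Fin a → R)
    (M : Matrix (Fin a) (Fin b) R) :
    (fun j => ψ ((w ᵥ* M) j)) = (fun i => ψ (w i)) ᵥ* M.map ψ := by
  funext j
  simp [Matrix.vecMul, dotProduct, map_sum]

variable {G Q : Type} [Group G] [Group Q]

/-- Cycles become combinations of boundaries, in the strong sense that their annihilators modulo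
the boundaries generate the unit left ideal. -/
def NullAt {S : Type*} [Ring S] (X : FinRes G) (π : MonoidAlgebra ℤ G →+* MonoidAlgebra ℤ Q)
    (ψ : MonoidAlgebra ℤ Q →+* S) (r : ℕ) : Prop :=
  ∀ z : Fin (X.n (r + 1)) → MonoidAlgebra ℤ Q, z ᵥ* (X.d r).map π = 0 →
    (1 : S) ∈ Submodule.span S (ψ '' {a | ∃ w, w ᵥ* (X.d (r + 1)).map π = a • z})

/-- acyclicity in degree `r + 2` descends -/
theorem descend' {S : Type*} [Ring S] (hS : ∀ c : ℤ, c ≠ 0 → ∃ u : S, u * (c : S) = 1)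
    (X : FinRes G) (Y : FinRes Q)
    (π : MonoidAlgebra ℤ G →+* MonoidAlgebra ℤ Q) (hπ : ∀ a, augm Q (π a) = augm G a)
    (ψ : MonoidAlgebra ℤ Q →+* S) (r : ℕ) (hB : Back X Y π (r + 1)) (hN : NullAt X π ψ r)
    (h : ExAt X (ψ.comp π) (r + 2)) : ExAt Y ψ (r + 2) := by
  obtain ⟨c, hc, K, hK0, hK⟩ := hB
  obtain ⟨u, hu⟩ := hS c hc
  obtain ⟨F, hF0, hF⟩ := fwd X Y π hπ
  obtain ⟨H, hH0, hH⟩ := homotopy Y (r + 1) c (fun i => K i * F i) (by
      intro k
      rw [Matrix.mul_apply_eq_vecMul, eps_vecMul, ← hK0 k]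
      exact Finset.sum_congr rfl fun j _ => by rw [hF0 j]) (by
      intro i hi
      rw [← Matrix.mul_assoc, hK i hi, Matrix.mul_assoc, hF, ← Matrix.mul_assoc])
  have m : ∀ {a b c : ℕ} (M : Matrix (Fin a) (Fin b) (MonoidAlgebra ℤ Q))
      (N : Matrix (Fin b) (Fin c) (MonoidAlgebra ℤ Q)), (M * N).map ψ = M.map ψ * N.map ψ :=
    fun M N => Matrix.map_mul
  have mm : ∀ {a b : ℕ} (M : Matrix (Fin a) (Fin b) (MonoidAlgebra ℤ G)),
      M.map (ψ.comp π) = (M.map π).map ψ := fun M => rfl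
  set E : Matrix (Fin (Y.n (r + 2))) (Fin (Y.n (r + 2))) (MonoidAlgebra ℤ Q) :=
    c • 1 + Y.d (r + 1) * H (r + 1) with hE
  set Z : Matrix (Fin (Y.n (r + 2))) (Fin (X.n (r + 1))) (MonoidAlgebra ℤ Q) :=
    Y.d (r + 1) * K (r + 1) with hZ
  have hZE : Z * F (r + 1) = E * Y.d (r + 1) := by
    have h1 := hH r (Nat.lt_succ_self r)
    have h2 : K (r + 1) * F (r + 1) = c • 1 + (Y.d r * H r + H (r + 1) * Y.d (r + 1)) := by
      rw [← h1]; abel
    rw [hZ, hE, Matrix.mul_assoc, h2, Matrix.mul_add, Matrix.mul_add, ← Matrix.mul_assoc (Y.d (r + 1)),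
      d_mul_d, Matrix.zero_mul, zero_add, Matrix.mul_smul, Matrix.mul_one, Matrix.add_mul,
      Matrix.smul_mul, Matrix.one_mul, Matrix.mul_assoc]
  have hZc : Z * (X.d r).map π = 0 := by
    rw [hZ, Matrix.mul_assoc, ← hK r (Nat.lt_succ_self r), ← Matrix.mul_assoc, d_mul_d,
      Matrix.zero_mul]
  -- the two matrices over `S`
  have key : ∀ k, ∃ (ω : Fin (X.n (r + 2)) → S) (υ : Fin (Y.n (r + 3)) → S),
      ω ᵥ* (X.d (r + 1)).map (ψ.comp π) = (fun j => ψ (Z k j)) ∧
      ω ᵥ* (F (r + 2)).map ψ - υ ᵥ* (Y.d (r + 2)).map ψ = fun j => ψ (E k j) := by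
    intro k
    have h1 := hN (Z k) (by rw [← Matrix.mul_apply_eq_vecMul, hZc]; rfl)
    have h2 : ∀ s ∈ Submodule.span S (ψ '' {a | ∃ w, w ᵥ* (X.d (r + 1)).map π = a • Z k}),
        ∃ (ω : Fin (X.n (r + 2)) → S) (υ : Fin (Y.n (r + 3)) → S),
          ω ᵥ* (X.d (r + 1)).map (ψ.comp π) = s • (fun j => ψ (Z k j)) ∧
          ω ᵥ* (F (r + 2)).map ψ - υ ᵥ* (Y.d (r + 2)).map ψ = s • fun j => ψ (E k j) := by
      intro s hs
      induction hs using Submodule.span_induction with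
      | mem x hx =>
        obtain ⟨a, ⟨w, hw⟩, rfl⟩ := hx
        obtain ⟨v, hv⟩ := (Y.exact_succ (r + 1) (w ᵥ* F (r + 2) - a • E k)).1 (by
          rw [Matrix.sub_vecMul, Matrix.vecMul_vecMul, ← hF, ← Matrix.vecMul_vecMul, hw,
            Matrix.smul_vecMul, Matrix.smul_vecMul, ← Matrix.mul_apply_eq_vecMul,
            ← Matrix.mul_apply_eq_vecMul, hZE, sub_self])
        refine ⟨fun i => ψ (w i), fun i => ψ (v i), ?_, ?_⟩
        · rw [mm, ← vmap, hw]
          funext j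
          exact map_mul ψ _ _
        · rw [← vmap, ← vmap, hv]
          funext j
          change ψ _ - ψ (_ - a * E k j) = ψ a * ψ (E k j)
          rw [map_sub, map_mul, sub_sub_cancel]
      | zero =>
        refine ⟨0, 0, ?_, ?_⟩
        · rw [Matrix.zero_vecMul, zero_smul]
        · rw [Matrix.zero_vecMul, Matrix.zero_vecMul, sub_self, zero_smul]
      | add x y _ _ hx hy =>
        obtain ⟨ω, υ, h3, h4⟩ := hx
        obtain ⟨ω', υ', h5, h6⟩ := hy
        refine ⟨ω + ω', υ + υ', ?_, ?_⟩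
        · rw [Matrix.add_vecMul, h3, h5, add_smul]
        · rw [Matrix.add_vecMul, Matrix.add_vecMul, add_smul, ← h4, ← h6]
          abel
      | smul t x _ hx =>
        obtain ⟨ω, υ, h3, h4⟩ := hx
        refine ⟨t • ω, t • υ, ?_, ?_⟩
        · rw [Matrix.smul_vecMul, h3, smul_assoc]
        · rw [Matrix.smul_vecMul, Matrix.smul_vecMul, smul_assoc, ← h4, smul_sub]
    obtain ⟨ω, υ, h3, h4⟩ := h2 1 h1
    exact ⟨ω, υ, by rw [h3, one_smul], by rw [h4, one_smul]⟩
  choose ω υ hω hυ using key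
  have e1 : Matrix.of ω * (X.d (r + 1)).map (ψ.comp π) = Z.map ψ := by
    funext k
    rw [Matrix.mul_apply_eq_vecMul]
    exact hω k
  have e2 : Matrix.of ω * (F (r + 2)).map ψ - Matrix.of υ * (Y.d (r + 2)).map ψ = E.map ψ := by
    refine Matrix.ext fun k j => ?_
    exact congrFun (hυ k) j
  intro x hx
  obtain ⟨y, hy⟩ := h (x ᵥ* Matrix.of ω) (by
    rw [Matrix.vecMul_vecMul, e1, hZ, m, ← Matrix.vecMul_vecMul, hx, Matrix.zero_vecMul])
  have e3 : (X.d (r + 2)).map (ψ.comp π) * (F (r + 2)).map ψ =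
      (F (r + 3)).map ψ * (Y.d (r + 2)).map ψ := by
    rw [mm, ← m, ← m, hF]
  have e4 : x ᵥ* E.map ψ = (c : S) • x := by
    rw [hE, Matrix.map_add _ (map_add ψ), map_smul_one, m, Matrix.vecMul_add,
      ← Matrix.vecMul_vecMul, hx, Matrix.zero_vecMul, add_zero, Matrix.vecMul_smul,
      Matrix.vecMul_one]
    funext j
    rw [Pi.smul_apply, Pi.smul_apply, smul_eq_mul, zsmul_eq_mul]
  have e5 : (y ᵥ* (F (r + 3)).map ψ - x ᵥ* Matrix.of υ) ᵥ* (Y.d (r + 2)).map ψ = (c : S) • x := by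
    rw [← e4, ← e2, Matrix.vecMul_sub, Matrix.sub_vecMul, Matrix.vecMul_vecMul,
      Matrix.vecMul_vecMul, ← e3, ← Matrix.vecMul_vecMul, hy, Matrix.vecMul_vecMul]
  refine ⟨u • (y ᵥ* (F (r + 3)).map ψ - x ᵥ* Matrix.of υ), ?_⟩
  rw [Matrix.smul_vecMul, e5, smul_smul, hu, one_smul]

/-- nonamenability from the vanishing in degree zero -/
theorem nonamen {S : Type*} [Ring S] (Y : FinRes Q) (ψ : MonoidAlgebra ℤ Q →+* S)
    (h : ExAt Y ψ 0) :
    (1 : S) ∈ Submodule.span S (Set.range fun g : Q => (1 : S) - ψ (single g 1)) := by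
  set I := Submodule.span S (Set.range fun g : Q => (1 : S) - ψ (single g 1)) with hI
  have h1 : ∀ a : MonoidAlgebra ℤ Q, ψ a - ((augm Q a : ℤ) : S) ∈ I := by
    intro a
    refine induction_linear a ?_ ?_ ?_
    · rw [map_zero, map_zero, Int.cast_zero, sub_zero]
      exact I.zero_mem
    · intro x y hx hy
      have : ψ (x + y) - ((augm Q (x + y) : ℤ) : S) =
          (ψ x - ((augm Q x : ℤ) : S)) + (ψ y - ((augm Q y : ℤ) : S)) := by
        rw [map_add, map_add, Int.cast_add]; abel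
      rw [this]
      exact I.add_mem hx hy
    · intro g k
      have h2 : (single g k : MonoidAlgebra ℤ Q) = k • single g 1 := by
        rw [smul_single, smul_eq_mul, mul_one]
      have h3 : ψ (single g k) - ((augm Q (single g k) : ℤ) : S) =
          (-(k : S)) • ((1 : S) - ψ (single g 1)) := by
        rw [h2, map_zsmul, map_zsmul, augm_single, smul_eq_mul, mul_one, zsmul_eq_mul, smul_eq_mul]
        noncomm_ring
      rw [h3]
      exact I.smul_mem _ (Submodule.subset_span ⟨g, rfl⟩)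
  have h2 : ∀ k : Fin (Y.n 1), ∑ j, ψ (Y.d 0 k j) * ((Y.aug j : ℤ) : S) ∈ I := by
    intro k
    have h3 : ∑ j, ψ (Y.d 0 k j) * ((Y.aug j : ℤ) : S) =
        ∑ j, ((Y.aug j : ℤ) : S) • (ψ (Y.d 0 k j) - ((augm Q (Y.d 0 k j) : ℤ) : S)) := by
      have h4 := eps_row Y k
      have h5 : ∑ j, ((augm Q (Y.d 0 k j) : ℤ) : S) * ((Y.aug j : ℤ) : S) = 0 := by
        have := congrArg (fun z : ℤ => (z : S)) h4
        push_cast at this
        exact this
      have h6 : ∑ j, ψ (Y.d 0 k j) * ((Y.aug j : ℤ) : S) =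
          ∑ j, ψ (Y.d 0 k j) * ((Y.aug j : ℤ) : S) -
            ∑ j, ((augm Q (Y.d 0 k j) : ℤ) : S) * ((Y.aug j : ℤ) : S) := by
        rw [h5, sub_zero]
      rw [h6, ← Finset.sum_sub_distrib]
      refine Finset.sum_congr rfl fun j _ => ?_
      rw [smul_eq_mul, mul_sub, (Int.cast_commute (Y.aug j) (ψ (Y.d 0 k j))).eq,
        (Int.cast_commute (Y.aug j) ((augm Q (Y.d 0 k j) : ℤ) : S)).eq]
    rw [h3]
    exact I.sum_mem fun j _ => I.smul_mem _ (h1 _)
  have h3 : ∀ j, ((Y.aug j : ℤ) : S) ∈ I := by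
    intro j
    obtain ⟨y, hy⟩ := h (Pi.single j 1)
    have h4 : ((Y.aug j : ℤ) : S) = ∑ k, y k • ∑ l, ψ (Y.d 0 k l) * ((Y.aug l : ℤ) : S) := by
      have h5 : ∀ l, (Pi.single j (1 : S) : Fin (Y.n 0) → S) l = ∑ k, y k * ψ (Y.d 0 k l) := by
        intro l
        rw [← hy]
        rfl
      have h6 : ((Y.aug j : ℤ) : S) =
          ∑ l, (Pi.single j (1 : S) : Fin (Y.n 0) → S) l * ((Y.aug l : ℤ) : S) := by
        rw [Finset.sum_eq_single j]
        · rw [Pi.single_eq_same, one_mul]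
        · intro b _ hb
          rw [Pi.single_eq_of_ne hb, zero_mul]
        · intro hb
          exact absurd (Finset.mem_univ j) hb
      rw [h6]
      simp only [h5, Finset.sum_mul, smul_eq_mul, Finset.mul_sum, mul_assoc]
      rw [Finset.sum_comm]
    rw [h4]
    exact I.sum_mem fun k _ => I.smul_mem _ (h2 k)
  obtain ⟨x, hx⟩ := Y.surj
  have h4 : (1 : S) = ∑ j, ((augm Q (x j) : ℤ) : S) • ((Y.aug j : ℤ) : S) := by
    have := congrArg (fun z : ℤ => (z : S)) hx
    push_cast at this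
    exact this.symm
  rw [h4]
  exact I.sum_mem fun j _ => I.smul_mem _ (h3 j)

end

end Pool.Agent.Helper6K1.ZM
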