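import Pool.Agent.Helper6K1.ZM.Op

/-!
Left ideals of finite codimension in the complex group ring of a nonamenable group generate the
reduced group C*-algebra as a left ideal.
-/

set_option autoImplicit false
set_option linter.unusedSectionVars false

open scoped Matrix ENNReal InnerProductSpace
open Filter Topology

namespace Pool.Agent.Helper6K1.ZM

open Pool.Agent.H496R3.ZS (Ell dl dl_apply permIso orthonormal_dl)
open Pool.Agent.H919R4.ZS
open Pool.Agent.TH38.ZT
open MonoidAlgebra (single)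

noncomputable section

section form

variable {G : Type} [Group G] {D : Type} (U : Ultrafilter D) (ξ : D → L2 G)

/-- the elements of the group ring that kill the net in the limit -/
def Null (a : MonoidAlgebra ℂ G) : Prop := Tendsto (fun d => LC a (ξ d)) U (𝓝 0)

/-- the limit form -/
def IsForm (h : MonoidAlgebra ℂ G → MonoidAlgebra ℂ G → ℂ) : Prop :=
  ∀ a b, Tendsto (fun d => ⟪LC a (ξ d), LC b (ξ d)⟫_ℂ) U (𝓝 (h a b))

lemma exists_form (hξ : ∀ d, ‖ξ d‖ = 1) : ∃ h, IsForm U ξ h := by
  have key : ∀ a b : MonoidAlgebra ℂ G, ∃ z : ℂ,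
      Tendsto (fun d => ⟪LC a (ξ d), LC b (ξ d)⟫_ℂ) U (𝓝 z) := by
    intro a b
    have h1 := (isCompact_closedBall (0 : ℂ) (‖LC a‖ * ‖LC b‖)).ultrafilter_le_nhds'
      (U.map fun d => ⟪LC a (ξ d), LC b (ξ d)⟫_ℂ) (by
        refine Ultrafilter.mem_map.2 (Filter.univ_mem' fun d => ?_)
        change ⟪LC a (ξ d), LC b (ξ d)⟫_ℂ ∈ Metric.closedBall (0 : ℂ) _
        rw [mem_closedBall_zero_iff]
        refine (norm_inner_le_norm _ _).trans ?_
        have h2 := (LC a).le_opNorm (ξ d)
        have h3 := (LC b).le_opNorm (ξ d)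
        rw [hξ, mul_one] at h2 h3
        gcongr)
    obtain ⟨z, -, hz⟩ := h1
    exact ⟨z, hz⟩
  choose h hh using key
  exact ⟨h, hh⟩

variable {U ξ}

lemma Null.add {a b : MonoidAlgebra ℂ G} (ha : Null U ξ a) (hb : Null U ξ b) :
    Null U ξ (a + b) := by
  have := Tendsto.add ha hb
  rw [add_zero] at this
  refine this.congr fun d => ?_
  rw [map_add]
  rfl

lemma Null.zero : Null U ξ (0 : MonoidAlgebra ℂ G) := by
  unfold Null
  simp

lemma Null.mul {a : MonoidAlgebra ℂ G} (b : MonoidAlgebra ℂ G) (ha : Null U ξ a) :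
    Null U ξ (b * a) := by
  have := ((LC b).continuous.tendsto 0).comp ha
  rw [map_zero] at this
  refine this.congr fun d => ?_
  rw [map_mul]
  rfl

lemma Null.smul {a : MonoidAlgebra ℂ G} (c : ℂ) (ha : Null U ξ a) : Null U ξ (c • a) := by
  have := Tendsto.const_smul ha c
  rw [smul_zero] at this
  refine this.congr fun d => ?_
  rw [map_smul]
  rfl

lemma Null.neg {a : MonoidAlgebra ℂ G} (ha : Null U ξ a) : Null U ξ (-a) := by
  have := ha.smul (-1)
  rwa [neg_smul, one_smul] at this

lemma Null.sum {ι : Type} (s : Finset ι) (f : ι → MonoidAlgebra ℂ G)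
    (h : ∀ i ∈ s, Null U ξ (f i)) : Null U ξ (∑ i ∈ s, f i) := by
  classical
  induction s using Finset.induction_on with
  | empty => rw [Finset.sum_empty]; exact Null.zero
  | insert a s ha ih =>
    rw [Finset.sum_insert ha]
    exact (h a (Finset.mem_insert_self a s)).add
      (ih fun i hi => h i (Finset.mem_insert_of_mem hi))

variable {h : MonoidAlgebra ℂ G → MonoidAlgebra ℂ G → ℂ} (hh : IsForm U ξ h)

include hh

lemma form_add (a b c : MonoidAlgebra ℂ G) : h a (b + c) = h a b + h a c := by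
  refine tendsto_nhds_unique (hh a (b + c)) ?_
  refine ((hh a b).add (hh a c)).congr fun d => ?_
  rw [← inner_add_right, map_add]
  rfl

lemma form_smul (a b : MonoidAlgebra ℂ G) (c : ℂ) : h a (c • b) = c * h a b := by
  refine tendsto_nhds_unique (hh a (c • b)) ?_
  refine ((hh a b).const_mul c).congr fun d => ?_
  rw [← inner_smul_right, map_smul]
  rfl

lemma form_symm (a b : MonoidAlgebra ℂ G) : h b a = (starRingEnd ℂ) (h a b) := by
  refine tendsto_nhds_unique (hh b a) ?_
  refine ((Complex.continuous_conj.tendsto _).comp (hh a b)).congr fun d => ?_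
  exact inner_conj_symm _ _

lemma form_null (a : MonoidAlgebra ℂ G) {b : MonoidAlgebra ℂ G} (hb : Null U ξ b)
    (hξ : ∀ d, ‖ξ d‖ = 1) : h a b = 0 := by
  refine tendsto_nhds_unique (hh a b) ?_
  refine squeeze_zero_norm (a := fun d => ‖LC a‖ * ‖LC b (ξ d)‖) (fun d => ?_) ?_
  · refine (norm_inner_le_norm _ _).trans ?_
    have h2 := (LC a).le_opNorm (ξ d)
    rw [hξ, mul_one] at h2
    gcongr
  · have h2 := (tendsto_zero_iff_norm_tendsto_zero.1 hb).const_mul ‖LC a‖
    rwa [mul_zero] at h2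

lemma form_sum {ι : Type} (s : Finset ι) (a : MonoidAlgebra ℂ G) (f : ι → MonoidAlgebra ℂ G) :
    h a (∑ i ∈ s, f i) = ∑ i ∈ s, h a (f i) := by
  classical
  induction s using Finset.induction_on with
  | empty =>
    rw [Finset.sum_empty, Finset.sum_empty]
    have := form_smul hh a 0 0
    rwa [smul_zero, zero_mul] at this
  | insert b s hb ih => rw [Finset.sum_insert hb, Finset.sum_insert hb, form_add hh, ih]

lemma form_sub (a b c : MonoidAlgebra ℂ G) : h a (b - c) = h a b - h a c := by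
  have h1 := form_smul hh a c (-1)
  rw [sub_eq_add_neg, form_add hh, ← neg_one_smul ℂ c, h1]
  ring

lemma null_of_form {a : MonoidAlgebra ℂ G} (ha : h a a = 0) : Null U ξ a := by
  have h1 := hh a a
  rw [ha] at h1
  have h2 := (tendsto_zero_iff_norm_tendsto_zero.1 h1)
  refine tendsto_zero_iff_norm_tendsto_zero.2 ?_
  have h3 := h2.sqrt
  rw [Real.sqrt_zero] at h3
  refine h3.congr fun d => ?_
  rw [inner_self_eq_norm_sq_to_K]
  simp

lemma form_real (a : MonoidAlgebra ℂ G) : ∃ r : ℝ, 0 ≤ r ∧ h a a = r := by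
  have h1 := hh a a
  have h2 : Tendsto (fun d => ‖LC a (ξ d)‖ ^ 2) U (𝓝 (h a a).re) := by
    refine ((Complex.continuous_re.tendsto _).comp h1).congr fun d => ?_
    change (⟪LC a (ξ d), LC a (ξ d)⟫_ℂ).re = _
    rw [inner_self_eq_norm_sq_to_K]
    norm_cast
  have h3 : Tendsto (fun d => (⟪LC a (ξ d), LC a (ξ d)⟫_ℂ).im) U (𝓝 (h a a).im) :=
    (Complex.continuous_im.tendsto _).comp h1
  have h4 : (h a a).im = 0 := by
    refine tendsto_nhds_unique h3 ?_
    refine tendsto_const_nhds.congr fun d => ?_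
    rw [inner_self_eq_norm_sq_to_K]
    norm_cast
  refine ⟨(h a a).re, ge_of_tendsto h2 (Eventually.of_forall fun d => by positivity), ?_⟩
  exact Complex.ext (by simp) (by simp [h4])

end form

section main

variable {G : Type} [Group G] {D : Type} {U : Ultrafilter D} {ξ : D → L2 G}
  {h : MonoidAlgebra ℂ G → MonoidAlgebra ℂ G → ℂ}

/-- an orthonormal family -/
def ON (h : MonoidAlgebra ℂ G → MonoidAlgebra ℂ G → ℂ) (n : ℕ) : Prop :=
  ∃ u : Fin n → MonoidAlgebra ℂ G, ∀ i j, h (u i) (u j) = if i = j then 1 else 0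

lemma on_bound (hh : IsForm U ξ h) (hξ : ∀ d, ‖ξ d‖ = 1)
    (W : Submodule ℂ (MonoidAlgebra ℂ G)) [FiniteDimensional ℂ W]
    (hW : ∀ a, ∃ w ∈ W, Null U ξ (a - w)) (n : ℕ) (hn : ON h n) :
    n ≤ Module.finrank ℂ W := by
  obtain ⟨u, hu⟩ := hn
  let T : W →ₗ[ℂ] (Fin n → ℂ) :=
    { toFun := fun w i => h (u i) w
      map_add' := fun v w => by
        funext i
        exact form_add hh _ _ _
      map_smul' := fun c w => by
        funext i
        exact form_smul hh _ _ _ }
  have hT : LinearMap.range T = ⊤ := by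
    rw [eq_top_iff, ← (Pi.basisFun ℂ (Fin n)).span_eq, Submodule.span_le]
    rintro _ ⟨j, rfl⟩
    obtain ⟨w, hw, hw2⟩ := hW (u j)
    refine ⟨⟨w, hw⟩, ?_⟩
    funext i
    have h3 : h (u i) (u j - w) = 0 := form_null hh _ hw2 hξ
    rw [form_sub hh, sub_eq_zero, hu] at h3
    change h (u i) w = _
    rw [← h3, Pi.basisFun_apply, Pi.single_apply]
  have h4 := LinearMap.finrank_range_le T
  rw [hT, finrank_top, Module.finrank_fin_fun] at h4
  exact h4

/-- a maximal orthonormal family is a basis modulo the null elements -/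
lemma on_max (hh : IsForm U ξ h) (n : ℕ) (u : Fin n → MonoidAlgebra ℂ G)
    (hu : ∀ i j, h (u i) (u j) = if i = j then 1 else 0) (hmax : ¬ ON h (n + 1))
    (a : MonoidAlgebra ℂ G) : Null U ξ (a - ∑ i, h (u i) a • u i) := by
  set b := a - ∑ i, h (u i) a • u i with hb
  have h1 : ∀ j, h (u j) b = 0 := by
    intro j
    rw [hb, form_sub hh, form_sum hh]
    have h2 : ∀ i, h (u j) (h (u i) a • u i) = if j = i then h (u i) a else 0 := by
      intro i
      rw [form_smul hh, hu]
      by_cases e : j = i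
      · rw [if_pos e, if_pos e, mul_one]
      · rw [if_neg e, if_neg e, mul_zero]
    rw [Finset.sum_congr rfl fun i _ => h2 i, Finset.sum_ite_eq]
    simp
  have h1' : ∀ j, h b (u j) = 0 := by
    intro j
    rw [form_symm hh, h1, map_zero]
  obtain ⟨r, hr, hr2⟩ := form_real hh b
  rcases hr.eq_or_lt with h0 | h0
  · refine null_of_form hh ?_
    rw [hr2, ← h0]
    simp
  · exfalso
    refine hmax ⟨Fin.snoc u (((Real.sqrt r)⁻¹ : ℂ) • b), fun i j => ?_⟩
    have hs : ((Real.sqrt r : ℝ) : ℂ) ≠ 0 := by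
      exact_mod_cast (Real.sqrt_pos.2 h0).ne'
    refine Fin.lastCases ?_ (fun i => ?_) i
    · refine Fin.lastCases ?_ (fun j => ?_) j
      · rw [Fin.snoc_last, if_pos rfl, form_smul hh, form_symm hh, form_smul hh, hr2]
        rw [map_mul, map_inv₀, Complex.conj_ofReal, Complex.conj_ofReal]
        have h5 : (r : ℂ) = (Real.sqrt r : ℂ) * (Real.sqrt r : ℂ) := by
          rw [← Complex.ofReal_mul, Real.mul_self_sqrt h0.le]
        rw [h5]
        field_simp
      · rw [Fin.snoc_last, Fin.snoc_castSucc, form_symm hh, form_smul hh, h1, mul_zero, map_zero,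
          if_neg]
        exact fun e => absurd e.symm (Fin.castSucc_lt_last j).ne
    · refine Fin.lastCases ?_ (fun j => ?_) j
      · rw [Fin.snoc_last, Fin.snoc_castSucc, form_smul hh, h1, mul_zero, if_neg]
        exact (Fin.castSucc_lt_last i).ne
      · rw [Fin.snoc_castSucc, Fin.snoc_castSucc, hu]
        simp only [Fin.castSucc_inj]

end main

end

end Pool.Agent.Helper6K1.ZM
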