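import Pool.Agent.Helper6K1.ZM.Rat

/-!
Extensions with amenable kernel: the conclusion.
-/

set_option autoImplicit false
set_option linter.unusedSectionVars false

open scoped Matrix

namespace Pool.Agent.Helper6K1.ZM

open Pool.Agent.H919R4.ZS MonoidAlgebra Pool.Agent.TH38.ZT Pool.Agent.R807.ZK
open Pool.Agent.H496R3.ZS (IsAmenable)

noncomputable section

variable {G : Type} [Group G] (N : Subgroup G) [N.Normal]

theorem extension' (hN : IsAmenable N) (X : FinRes G) (Y : FinRes (G ⧸ N)) (i : ℕ)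
    (h : Nontrivial (Y.homology (toRed (G ⧸ N)) i))
    (h0 : ∀ q, 1 ≤ q → q + 1 < i → Subsingleton (X.homology (toRat N) q))
    (h1 : ∀ q, 1 ≤ q → q + 1 = i → FinDim X (toRat N) q) :
    ∃ j ≤ i, Nontrivial (X.homology (toRed G) j) := by
  rcases Nat.lt_or_ge i 2 with hi | hi
  · exact extension N hN X Y i h (Or.inr fun q h1 h2 => by omega)
  obtain ⟨r, rfl⟩ : ∃ r, i = r + 2 := ⟨i - 2, by omega⟩
  by_contra hcon
  push Not at hcon
  have hY0 : ExAt Y (toRed (G ⧸ N)) 0 := by
    rw [exAt_iff, ← not_nontrivial_iff_subsingleton]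
    intro h2
    obtain ⟨j, hj, hj2⟩ := extension N hN X Y 0 h2 (Or.inr fun q h1 h2 => by omega)
    exact not_nontrivial_iff_subsingleton.2 (hcon j (hj.trans (Nat.zero_le _))) hj2
  have hX := coeff N hN X (r + 2) (fun j hj => (exAt_iff X _ j).2 (hcon j hj))
  have hB : Back X Y (gmap (QuotientGroup.mk' N)) (r + 1) :=
    back_acyclic X Y _ (QuotientGroup.mk'_surjective N) (r + 1) fun q hq =>
      tor_of_rat X _ q ((exAt_iff X _ (q + 1)).2 (h0 (q + 1) (by omega) (by omega)))
  have hNull : NullAt X (gmap (QuotientGroup.mk' N)) (toRed (G ⧸ N)) r :=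
    null_of_finite (nonamen Y (toRed (G ⧸ N)) hY0) X _ r (h1 (r + 1) (by omega) rfl)
  have h3 := descend' (redC_inv (G ⧸ N)) X Y (gmap (QuotientGroup.mk' N)) (augm_gmap _)
    (toRed (G ⧸ N)) r hB hNull (hX (r + 2) le_rfl)
  exact not_nontrivial_iff_subsingleton.2 ((exAt_iff Y _ _).1 h3) h

end

end Pool.Agent.Helper6K1.ZM
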