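import Pool.Agent.TH38.ZT.Trace

/-!
The complex group ring inside the reduced group C*-algebra; left ideals generated by subsets of the
complex group ring and approximate eigenvectors.
-/

set_option autoImplicit false
set_option linter.unusedSectionVars false

open scoped Matrix ENNReal InnerProductSpace
open Filter Topology

namespace Pool.Agent.Helper6K1.ZM

open Pool.Agent.H496R3.ZS (Ell dl dl_apply permIso orthonormal_dl)
open Pool.Agent.H919R4.ZS
open Pool.Agent.TH38.ZT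
open MonoidAlgebra (single)

noncomputable section

/-- multiplication by a function with values of norm at most one -/
def mulB {Z : Type} (f : Z → ℂ) (hf : ∀ z, ‖f z‖ ≤ 1) : Ell Z →L[ℂ] Ell Z :=
  LinearMap.mkContinuous
    { toFun := fun v => ⟨fun z => f z * v z, by
        refine Memℓp.mono' (lp.memℓp v) (fun z => ?_)
        rw [norm_mul]
        exact mul_le_of_le_one_left (norm_nonneg _) (hf z)⟩
      map_add' := fun v w => by ext z; exact mul_add _ _ _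
      map_smul' := fun c v => by ext z; exact mul_left_comm _ _ _ } 1 (fun v => by
        rw [one_mul]
        refine lp.norm_mono (by norm_num) fun z => ?_
        change ‖f z * v z‖ ≤ ‖v z‖
        rw [norm_mul]
        exact mul_le_of_le_one_left (norm_nonneg _) (hf z))

lemma mulB_apply {Z : Type} (f : Z → ℂ) (hf : ∀ z, ‖f z‖ ≤ 1) (v : Ell Z) (z : Z) :
    mulB f hf v z = f z * v z := rfl

variable {G : Type} [Group G]

/-- the left regular representation -/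
def lrH : G →* (L2 G →L[ℂ] L2 G) where
  toFun g := lregL g
  map_one' := by
    refine ContinuousLinearMap.ext fun f => ?_
    ext h
    change f ((1 : G)⁻¹ * h) = f h
    simp
  map_mul' g k := by
    refine ContinuousLinearMap.ext fun f => ?_
    ext h
    change f ((g * k)⁻¹ * h) = f (k⁻¹ * (g⁻¹ * h))
    simp [mul_assoc]

/-- the complex group ring acting on `ℓ²(G)` -/
def LC : MonoidAlgebra ℂ G →ₐ[ℂ] (L2 G →L[ℂ] L2 G) := MonoidAlgebra.lift ℂ _ G lrH

lemma LC_single (g : G) (c : ℂ) : LC (single g c) = c • lregL g := by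
  rw [LC, MonoidAlgebra.lift_single]
  rfl

lemma inner_lregL (g : G) (v w : L2 G) : ⟪lregL g v, lregL g w⟫_ℂ = ⟪v, w⟫_ℂ :=
  (permIso (Equiv.mulLeft g⁻¹)).inner_map_map v w

lemma norm_lregL (g : G) (v : L2 G) : ‖lregL g v‖ = ‖v‖ :=
  (permIso (Equiv.mulLeft g⁻¹)).norm_map v

lemma lregL_mul (g k : G) (v : L2 G) : lregL (g * k) v = lregL g (lregL k v) := by
  have := DFunLike.congr_fun ((lrH (G := G)).map_mul g k) v
  exact this

lemma lregL_one (v : L2 G) : lregL (1 : G) v = v := by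
  have := DFunLike.congr_fun ((lrH (G := G)).map_one) v
  exact this

lemma inner_lregL_inv (g : G) (v w : L2 G) : ⟪lregL g⁻¹ v, w⟫_ℂ = ⟪v, lregL g w⟫_ℂ := by
  rw [← inner_lregL g (lregL g⁻¹ v) w, ← lregL_mul, mul_inv_cancel, lregL_one]

/-- the adjoint of an element of the group ring -/
lemma exists_adj (a : MonoidAlgebra ℂ G) :
    ∃ a' : MonoidAlgebra ℂ G, ∀ v w : L2 G, ⟪LC a' v, w⟫_ℂ = ⟪v, LC a w⟫_ℂ := by
  refine MonoidAlgebra.induction_linear a ?_ ?_ ?_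
  · exact ⟨0, fun v w => by simp⟩
  · rintro x y ⟨x', hx⟩ ⟨y', hy⟩
    refine ⟨x' + y', fun v w => ?_⟩
    rw [map_add, map_add, add_apply, add_apply,
      inner_add_left, inner_add_right, hx, hy]
  · intro g c
    refine ⟨single g⁻¹ ((starRingEnd ℂ) c), fun v w => ?_⟩
    rw [LC_single, LC_single, smul_apply, smul_apply,
      inner_smul_left, inner_smul_right, inner_lregL_inv, starRingEnd_self_apply]

/-- the complex group ring in the reduced C*-algebra -/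
def toC : MonoidAlgebra ℂ G →+* RedC G :=
  (show MonoidAlgebra ℂ G →+* Op G from
    (LC : MonoidAlgebra ℂ G →ₐ[ℂ] (L2 G →L[ℂ] L2 G)).toRingHom).codRestrict (redCstar G) (by
      intro a
      refine Subring.le_topologicalClosure _ ?_
      change (LC a : L2 G →L[ℂ] L2 G) ∈ (show Set (L2 G →L[ℂ] L2 G) from (groupRing G : Set (Op G)))
      refine MonoidAlgebra.induction_linear a ?_ ?_ ?_
      · rw [map_zero]; exact Subring.zero_mem (groupRing G)
      · intro x y hx hy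
        rw [map_add]; exact Subring.add_mem (groupRing G) hx hy
      · intro g c
        rw [LC_single]
        exact Subring.subset_closure ⟨c, g, rfl⟩)

lemma valR_toC (a : MonoidAlgebra ℂ G) : valR (toC a) = LC a := rfl

lemma valR_inj : Function.Injective (valR : RedC G → (L2 G →L[ℂ] L2 G)) := fun _ _ h =>
  Subtype.ext h

lemma isClosed_range_valR : IsClosed (Set.range (valR : RedC G → (L2 G →L[ℂ] L2 G))) := by
  have h : IsClosed ((redCstar G : Subring (Op G)) : Set (Op G)) :=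
    Subring.isClosed_topologicalClosure _
  have h2 : (Set.range (valR : RedC G → (L2 G →L[ℂ] L2 G))) =
      (show Set (L2 G →L[ℂ] L2 G) from ((redCstar G : Subring (Op G)) : Set (Op G))) :=
    Subtype.range_val
  rw [h2]
  exact h

/-- the Neumann series -/
lemma one_sub_inv (r : RedC G) (hr : ‖valR r‖ < 1) : ∃ s : RedC G, s * (1 - r) = 1 := by
  have h1 := (summable_geometric_of_norm_lt_one hr).hasSum
  have h2 : (∑' n : ℕ, valR r ^ n) ∈ Set.range (valR : RedC G → (L2 G →L[ℂ] L2 G)) := by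
    refine isClosed_range_valR.mem_of_tendsto h1 (Eventually.of_forall fun F => ?_)
    refine ⟨∑ n ∈ F, r ^ n, ?_⟩
    rw [map_sum]
    exact Finset.sum_congr rfl fun n _ => map_pow _ _ _
  obtain ⟨s, hs⟩ := h2
  refine ⟨s, valR_inj ?_⟩
  rw [map_mul, map_sub, map_one, hs]
  exact geom_series_mul_neg (valR r) hr

/-- If a set of elements of the complex group ring does not generate `C*_r(G)` as a left ideal,
then finitely many of its elements have common approximate kernel vectors in `ℓ²(G)`. -/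
lemma approx (J : Set (MonoidAlgebra ℂ G))
    (h1 : (1 : RedC G) ∉ Submodule.span (RedC G) (toC '' J)) (F : Finset (MonoidAlgebra ℂ G))
    (hF : ∀ a ∈ F, a ∈ J) (ε : ℝ) (hε : 0 < ε) :
    ∃ ξ : L2 G, ‖ξ‖ = 1 ∧ ∀ a ∈ F, ‖LC a ξ‖ ≤ ε := by
  by_contra hcon
  push Not at hcon
  choose adj hadj using fun a : MonoidAlgebra ℂ G => exists_adj a
  set C : ℝ := ∑ a ∈ F, ‖LC a‖ ^ 2 with hC
  have hlow : ∀ ξ : L2 G, ε ^ 2 * ‖ξ‖ ^ 2 ≤ ∑ a ∈ F, ‖LC a ξ‖ ^ 2 := by
    intro ξ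
    rcases eq_or_ne ξ 0 with h | h
    · rw [h, norm_zero]
      simp
    · have hn : ‖ξ‖ ≠ 0 := norm_ne_zero_iff.2 h
      obtain ⟨a, ha, ha2⟩ := hcon (((‖ξ‖⁻¹ : ℝ) : ℂ) • ξ) (by
        rw [norm_smul, Complex.norm_real, norm_inv, norm_norm, inv_mul_cancel₀ hn])
      rw [map_smul, norm_smul, Complex.norm_real, norm_inv, norm_norm] at ha2
      have h3 : ε * ‖ξ‖ ≤ ‖LC a ξ‖ := by
        have := (lt_inv_mul_iff₀ (by positivity)).1 ha2
        linarith [mul_comm ‖ξ‖ ε]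
      calc ε ^ 2 * ‖ξ‖ ^ 2 = (ε * ‖ξ‖) ^ 2 := by ring
        _ ≤ ‖LC a ξ‖ ^ 2 := by gcongr
        _ ≤ _ := Finset.single_le_sum (f := fun a => ‖LC a ξ‖ ^ 2) (fun _ _ => by positivity) ha
  have hup : ∀ ξ : L2 G, ∑ a ∈ F, ‖LC a ξ‖ ^ 2 ≤ C * ‖ξ‖ ^ 2 := by
    intro ξ
    rw [hC, Finset.sum_mul]
    refine Finset.sum_le_sum fun a _ => ?_
    rw [← mul_pow]
    gcongr
    exact (LC a).le_opNorm ξ
  have hCpos : 0 < C := by
    have h2 := (hlow (dl (1 : G))).trans (hup (dl (1 : G)))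
    have h3 : ‖(dl (1 : G) : L2 G)‖ = 1 := orthonormal_dl.1 1
    rw [h3] at h2
    nlinarith [sq_pos_of_pos hε]
  have hεC : ε ^ 2 ≤ C := by
    have h2 := (hlow (dl (1 : G))).trans (hup (dl (1 : G)))
    have h3 : ‖(dl (1 : G) : L2 G)‖ = 1 := orthonormal_dl.1 1
    rw [h3] at h2
    nlinarith
  have hadjn : ∀ (a : MonoidAlgebra ℂ G) (v : L2 G), ‖LC (adj a) v‖ ≤ ‖LC a‖ * ‖v‖ := by
    intro a v
    rcases eq_or_ne ‖LC (adj a) v‖ 0 with h | h
    · rw [h]; positivity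
    · have h2 : ‖LC (adj a) v‖ ^ 2 ≤ ‖v‖ * (‖LC a‖ * ‖LC (adj a) v‖) := by
        have h3 : ‖LC (adj a) v‖ ^ 2 = ‖⟪LC (adj a) v, LC (adj a) v⟫_ℂ‖ := by
          rw [inner_self_eq_norm_sq_to_K]
          simp
        rw [h3, hadj]
        refine (norm_inner_le_norm _ _).trans ?_
        gcongr
        exact (LC a).le_opNorm _
      have hpos : 0 < ‖LC (adj a) v‖ := lt_of_le_of_ne (norm_nonneg _) (Ne.symm h)
      nlinarith
  set r : RedC G := 1 - ∑ a ∈ F, toC (((C⁻¹ : ℝ) : ℂ) • adj a) * toC a with hr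
  have hval : ∀ ξ : L2 G, valR r ξ = ξ - ((C⁻¹ : ℝ) : ℂ) • ∑ a ∈ F, LC (adj a) (LC a ξ) := by
    intro ξ
    rw [hr, map_sub, map_one, map_sum, sub_apply]
    congr 1
    rw [Finset.smul_sum, sum_apply]
    refine Finset.sum_congr rfl fun a _ => ?_
    rw [map_mul, valR_toC, valR_toC, map_smul]
    rfl
  have hnorm : ‖valR r‖ ≤ Real.sqrt (1 - ε ^ 2 / C) := by
    refine ContinuousLinearMap.opNorm_le_bound _ (Real.sqrt_nonneg _) fun ξ => ?_
    have h0 : 0 ≤ 1 - ε ^ 2 / C := by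
      rw [sub_nonneg, div_le_one hCpos]; exact hεC
    rw [← Real.sqrt_sq (norm_nonneg ξ), ← Real.sqrt_mul h0]
    refine Real.le_sqrt_of_sq_le ?_
    set T : L2 G := ∑ a ∈ F, LC (adj a) (LC a ξ) with hT
    set t : ℝ := ∑ a ∈ F, ‖LC a ξ‖ ^ 2 with ht
    have hin : ⟪T, ξ⟫_ℂ = (t : ℂ) := by
      rw [hT, sum_inner, ht]
      push_cast
      refine Finset.sum_congr rfl fun a _ => ?_
      rw [hadj, inner_self_eq_norm_sq_to_K]
      rfl
    have hin2 : RCLike.re ⟪ξ, T⟫_ℂ = t := by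
      rw [← inner_conj_symm, hin]
      simp
    have hTn : ‖T‖ ^ 2 ≤ C * t := by
      have h2 : ‖T‖ ≤ ∑ a ∈ F, ‖LC a‖ * ‖LC a ξ‖ :=
        (norm_sum_le _ _).trans (Finset.sum_le_sum fun a _ => hadjn a _)
      calc ‖T‖ ^ 2 ≤ (∑ a ∈ F, ‖LC a‖ * ‖LC a ξ‖) ^ 2 := by gcongr
        _ ≤ C * t := Finset.sum_mul_sq_le_sq_mul_sq _ _ _
    rw [hval]
    have h4 : ‖ξ - ((C⁻¹ : ℝ) : ℂ) • T‖ ^ 2 = ‖ξ‖ ^ 2 - 2 * (C⁻¹ * t) + C⁻¹ ^ 2 * ‖T‖ ^ 2 := by
      have h7 : RCLike.re (((C⁻¹ : ℝ) : ℂ) * ⟪ξ, T⟫_ℂ) = C⁻¹ * RCLike.re ⟪ξ, T⟫_ℂ :=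
        Complex.re_ofReal_mul _ _
      rw [@norm_sub_sq ℂ, inner_smul_right, h7, hin2, norm_smul,
        Complex.norm_real, Real.norm_of_nonneg (by positivity : (0 : ℝ) ≤ C⁻¹), mul_pow]
    rw [h4]
    have h5 : C⁻¹ ^ 2 * ‖T‖ ^ 2 ≤ C⁻¹ * t := by
      calc C⁻¹ ^ 2 * ‖T‖ ^ 2 ≤ C⁻¹ ^ 2 * (C * t) := by gcongr
        _ = C⁻¹ * t := by field_simp
    have h6 : ε ^ 2 / C * ‖ξ‖ ^ 2 ≤ C⁻¹ * t := by
      have := hlow ξ
      calc ε ^ 2 / C * ‖ξ‖ ^ 2 = C⁻¹ * (ε ^ 2 * ‖ξ‖ ^ 2) := by field_simp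
        _ ≤ C⁻¹ * t := by gcongr
    nlinarith
  obtain ⟨s, hs⟩ := one_sub_inv r (lt_of_le_of_lt hnorm (by
    rw [Real.sqrt_lt' one_pos]
    have : 0 < ε ^ 2 / C := by positivity
    linarith))
  refine h1 ?_
  rw [← hs, hr, sub_sub_cancel]
  exact Submodule.smul_mem _ s (Submodule.sum_mem _ fun a ha =>
    Submodule.smul_mem _ _ (Submodule.subset_span ⟨a, hF a ha, rfl⟩))

/-- a net of unit vectors killed in the limit by a set that generates a proper left ideal -/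
theorem exists_net (J : Set (MonoidAlgebra ℂ G))
    (h1 : (1 : RedC G) ∉ Submodule.span (RedC G) (toC '' J)) :
    ∃ (D : Type) (U : Ultrafilter D) (ξ : D → L2 G), (∀ d, ‖ξ d‖ = 1) ∧
      ∀ a ∈ J, Tendsto (fun d => LC a (ξ d)) U (𝓝 0) := by
  classical
  have h2 : ∀ d : Finset (MonoidAlgebra ℂ G) × ℕ, ∃ ξ : L2 G, ‖ξ‖ = 1 ∧
      ∀ a ∈ d.1.filter (fun a => a ∈ J), ‖LC a ξ‖ ≤ 1 / ((d.2 : ℝ) + 1) := fun d =>
    approx J h1 _ (fun a ha => (Finset.mem_filter.1 ha).2) _ (by positivity)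
  choose ξ hξ1 hξ2 using h2
  refine ⟨Finset (MonoidAlgebra ℂ G) × ℕ, Ultrafilter.of atTop, ξ, hξ1, fun a ha => ?_⟩
  refine Tendsto.mono_left ?_ (Ultrafilter.of_le atTop)
  rw [Metric.tendsto_nhds]
  intro ε hε
  obtain ⟨n, hn⟩ := exists_nat_one_div_lt hε
  filter_upwards [Filter.mem_atTop (({a}, n) : Finset (MonoidAlgebra ℂ G) × ℕ)] with d hd
  obtain ⟨hd1, hd2⟩ := Prod.le_def.1 hd
  have h3 := hξ2 d a (Finset.mem_filter.2 ⟨hd1 (Finset.mem_singleton_self a), ha⟩)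
  rw [dist_zero_right]
  refine lt_of_le_of_lt h3 (lt_of_le_of_lt ?_ hn)
  have h4 : (n : ℝ) ≤ d.2 := by exact_mod_cast hd2
  gcongr

end

end Pool.Agent.Helper6K1.ZM
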