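import Pool.Agent.Helper6K1.ZM.Star
import Pool.Agent.R807.ZK2

/-!
Poincaré duality: the dual complex of a finite free resolution.
-/

set_option autoImplicit false
set_option linter.unusedSectionVars false

open scoped Matrix

namespace Pool.Agent.Helper6K1.ZM

open Pool.Agent.H919R4.ZS MonoidAlgebra Pool.Agent.TH38.ZT Pool.Agent.R807.ZK

noncomputable section

/-- the transposed matrix, with an anti-homomorphism applied to the entries -/
def anti {R S : Type*} [Ring R] [Ring S] (τ : R →+ S) {a b : ℕ} (M : Matrix (Fin a) (Fin b) R) :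
    Matrix (Fin b) (Fin a) S := M.transpose.map τ

lemma anti_mul {R S : Type*} [Ring R] [Ring S] (τ : R →+ S) (h : ∀ x y, τ (x * y) = τ y * τ x)
    {a b c : ℕ} (M : Matrix (Fin a) (Fin b) R) (N : Matrix (Fin b) (Fin c) R) :
    anti τ (M * N) = anti τ N * anti τ M := by
  refine Matrix.ext fun i j => ?_
  simp only [anti, Matrix.map_apply, Matrix.transpose_apply, Matrix.mul_apply, map_sum, h]

lemma anti_zero {R S : Type*} [Ring R] [Ring S] (τ : R →+ S) {a b : ℕ} :
    anti τ (0 : Matrix (Fin a) (Fin b) R) = 0 := by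
  refine Matrix.ext fun i j => ?_
  simp [anti]

lemma anti_add {R S : Type*} [Ring R] [Ring S] (τ : R →+ S) {a b : ℕ}
    (M N : Matrix (Fin a) (Fin b) R) : anti τ (M + N) = anti τ M + anti τ N := by
  refine Matrix.ext fun i j => ?_
  simp [anti]

lemma anti_one {R S : Type*} [Ring R] [Ring S] (τ : R →+ S) (h : τ 1 = 1) {a : ℕ} :
    anti τ (1 : Matrix (Fin a) (Fin a) R) = 1 := by
  refine Matrix.ext fun i j => ?_
  simp only [anti, Matrix.map_apply, Matrix.transpose_apply, Matrix.one_apply]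
  by_cases e : i = j
  · subst e; simp [h]
  · rw [if_neg e, if_neg (fun e' => e e'.symm), map_zero]

variable {B : Type} [Group B] (Y : FinRes B) (w : B →* ℤ)

/-- the anti-automorphism as an additive map -/
def twA : MonoidAlgebra ℤ B →+ MonoidAlgebra ℤ B := AddMonoidHom.mk' (tw w) (tw_add w)

lemma twA_apply (a : MonoidAlgebra ℤ B) : twA w a = tw w a := rfl

/-- the differentials of the dual complex, on row vectors -/
def cd (k : ℕ) : Matrix (Fin (Y.n k)) (Fin (Y.n (k + 1))) (MonoidAlgebra ℤ B) :=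
  anti (twA w) (Y.d k)

lemma cd_cd (k : ℕ) : cd Y w k * cd Y w (k + 1) = 0 := by
  rw [cd, cd, ← anti_mul _ (tw_mul w), d_mul_d, anti_zero]

/-- the coboundaries -/
def bd : ∀ k, Submodule (MonoidAlgebra ℤ B) (Fin (Y.n k) → MonoidAlgebra ℤ B)
  | 0 => ⊥
  | k + 1 => LinearMap.range (cd Y w k).vecMulLinear

lemma mem_bd_succ {k : ℕ} {v : Fin (Y.n (k + 1)) → MonoidAlgebra ℤ B} :
    v ∈ bd Y w (k + 1) ↔ ∃ u, u ᵥ* cd Y w k = v := Iff.rfl

lemma bd_cocycle {k : ℕ} {v : Fin (Y.n k) → MonoidAlgebra ℤ B} (hv : v ∈ bd Y w k) :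
    v ᵥ* cd Y w k = 0 := by
  cases k with
  | zero =>
    have : v = 0 := hv
    rw [this, Matrix.zero_vecMul]
  | succ k =>
    obtain ⟨u, rfl⟩ := hv
    change (u ᵥ* cd Y w k) ᵥ* cd Y w (k + 1) = 0
    rw [Matrix.vecMul_vecMul, cd_cd, Matrix.vecMul_zero]

lemma tw_mulVec {a b : ℕ} (M : Matrix (Fin a) (Fin b) (MonoidAlgebra ℤ B))
    (y : Fin b → MonoidAlgebra ℤ B) :
    (fun i => tw w ((M *ᵥ y) i)) = (fun j => tw w (y j)) ᵥ* anti (twA w) M := by
  funext i
  change twA w (∑ j, M i j * y j) = ∑ j, tw w (y j) * tw w (M i j)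
  rw [map_sum]
  exact Finset.sum_congr rfl fun j _ => tw_mul w _ _

lemma tw_inj {a b : MonoidAlgebra ℤ B} (h : tw w a = tw w b) : a = b := by
  rw [← tw_tw w a, h, tw_tw]

lemma tw_vecMul_cd (k : ℕ) (v : Fin (Y.n k) → MonoidAlgebra ℤ B) :
    v ᵥ* cd Y w k = fun i => tw w ((Y.d k *ᵥ fun j => tw w (v j)) i) := by
  rw [tw_mulVec]
  simp only [tw_tw]
  rfl

lemma cob_bd {k : ℕ} {c : Fin (Y.n k) → MonoidAlgebra ℤ B} (hc : c ∈ Y.coboundaries k) :
    (fun j => tw w (c j)) ∈ bd Y w k := by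
  cases k with
  | zero =>
    have : c = 0 := hc
    subst this
    have h : (fun j => tw w ((0 : Fin (Y.n 0) → MonoidAlgebra ℤ B) j)) = 0 := by
      funext j; exact tw_zero w
    rw [h]
    exact Submodule.zero_mem _
  | succ k =>
    obtain ⟨y, rfl⟩ := hc
    refine ⟨fun j => tw w (y j), ?_⟩
    exact (tw_mulVec w (Y.d k) y).symm

lemma bd_cob {k : ℕ} {v : Fin (Y.n k) → MonoidAlgebra ℤ B} (hv : v ∈ bd Y w k) :
    (fun j => tw w (v j)) ∈ Y.coboundaries k := by
  cases k with
  | zero =>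
    have : v = 0 := hv
    subst this
    have h : (fun j => tw w ((0 : Fin (Y.n 0) → MonoidAlgebra ℤ B) j)) = 0 := by
      funext j; exact tw_zero w
    rw [h]
    exact AddSubgroup.zero_mem _
  | succ k =>
    obtain ⟨u, rfl⟩ := hv
    refine ⟨fun j => tw w (u j), ?_⟩
    change Y.d k *ᵥ (fun j => tw w (u j)) = fun j => tw w ((u ᵥ* cd Y w k) j)
    rw [tw_vecMul_cd]
    simp only [tw_tw]

lemma ex_of {k : ℕ} (h : Subsingleton (Y.cohomology k)) {v : Fin (Y.n k) → MonoidAlgebra ℤ B}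
    (hv : v ᵥ* cd Y w k = 0) : v ∈ bd Y w k := by
  have h1 : Y.d k *ᵥ (fun j => tw w (v j)) = 0 := by
    rw [tw_vecMul_cd] at hv
    funext i
    have := congrFun hv i
    exact tw_inj w (this.trans (tw_zero w).symm)
  have h2 : (fun j => tw w (v j)) ∈ Y.coboundaries k := by
    rw [QuotientAddGroup.subsingleton_iff, AddSubgroup.addSubgroupOf_eq_top] at h
    exact h h1
  have h3 := cob_bd Y w h2
  simp only [tw_tw] at h3
  exact h3

/-- right multiplication by a group element -/
def rm {k : ℕ} (g : B) (y : Fin k → MonoidAlgebra ℤ B) : Fin k → MonoidAlgebra ℤ B :=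
  fun j => y j * single g 1

lemma mulVec_rm {a b : ℕ} (M : Matrix (Fin a) (Fin b) (MonoidAlgebra ℤ B)) (g : B)
    (y : Fin b → MonoidAlgebra ℤ B) : M *ᵥ rm g y = rm g (M *ᵥ y) := by
  funext i
  change ∑ j, M i j * (y j * single g 1) = (∑ j, M i j * y j) * single g 1
  rw [Finset.sum_mul]
  exact Finset.sum_congr rfl fun j _ => (mul_assoc _ _ _).symm

lemma rm_cob {k : ℕ} (g : B) {c : Fin (Y.n k) → MonoidAlgebra ℤ B} (hc : c ∈ Y.coboundaries k) :
    rm g c ∈ Y.coboundaries k := by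
  cases k with
  | zero =>
    have : c = 0 := hc
    subst this
    have h : rm g (0 : Fin (Y.n 0) → MonoidAlgebra ℤ B) = 0 := by
      funext j; exact zero_mul _
    rw [h]
    exact AddSubgroup.zero_mem _
  | succ k =>
    obtain ⟨y, rfl⟩ := hc
    exact ⟨rm g y, mulVec_rm (Y.d k) g y⟩

/-- the fundamental class and the orientation character -/
theorem exists_data (N : ℕ) (he : Nonempty (Y.cohomology N ≃+ ℤ)) :
    ∃ (w : B →* ℤ) (x : Fin (Y.n N) → MonoidAlgebra ℤ B), x ᵥ* cd Y w N = 0 ∧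
      (∀ a : ℤ, a • x ∈ bd Y w N → a = 0) ∧
      (∀ v, v ᵥ* cd Y w N = 0 → ∃ a : ℤ, v - a • x ∈ bd Y w N) ∧
      ∀ g : B, (single g 1 : MonoidAlgebra ℤ B) • x - x ∈ bd Y w N := by
  obtain ⟨e⟩ := he
  obtain ⟨⟨x, hx⟩, hx2⟩ := QuotientAddGroup.mk_surjective (e.symm 1)
  have hxz : Y.d N *ᵥ x = 0 := hx
  have h1 : ∀ a : ℤ, a • x ∈ Y.coboundaries N → a = 0 := by
    intro a ha
    have h2 : (QuotientAddGroup.mk (a • (⟨x, hx⟩ : (Y.cobd N).ker)) : Y.cohomology N) = 0 := by
      rw [QuotientAddGroup.eq_zero_iff]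
      exact ha
    rw [QuotientAddGroup.mk_zsmul, hx2] at h2
    have h3 := congrArg e h2
    rw [map_zsmul, AddEquiv.apply_symm_apply, map_zero, smul_eq_mul, mul_one] at h3
    exact h3
  have h2 : ∀ y, Y.d N *ᵥ y = 0 → ∃ a : ℤ, y - a • x ∈ Y.coboundaries N := by
    intro y hy
    have hy' : y ∈ (Y.cobd N).ker := hy
    refine ⟨e (QuotientAddGroup.mk ⟨y, hy'⟩), ?_⟩
    have h3 : (QuotientAddGroup.mk ((⟨y, hy'⟩ : (Y.cobd N).ker) -
        e (QuotientAddGroup.mk ⟨y, hy'⟩) • (⟨x, hx⟩ : (Y.cobd N).ker)) : Y.cohomology N) = 0 := by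
      rw [QuotientAddGroup.mk_sub, QuotientAddGroup.mk_zsmul, hx2]
      refine e.injective ?_
      rw [map_sub, map_zsmul, AddEquiv.apply_symm_apply, map_zero, smul_eq_mul, mul_one, sub_self]
    rw [QuotientAddGroup.eq_zero_iff] at h3
    exact h3
  have h3 : ∀ g : B, ∃ a : ℤ, rm g x - a • x ∈ Y.coboundaries N := fun g =>
    h2 _ (by rw [mulVec_rm, hxz]; funext i; exact zero_mul _)
  choose u hu using h3
  have huniq : ∀ (g : B) (a : ℤ), rm g x - a • x ∈ Y.coboundaries N → u g = a := by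
    intro g a ha
    have h4 := AddSubgroup.sub_mem _ ha (hu g)
    have h5 : rm g x - a • x - (rm g x - u g • x) = (u g - a) • x := by
      rw [sub_smul]; abel
    rw [h5] at h4
    have := h1 _ h4
    omega
  let w : B →* ℤ :=
    { toFun := u
      map_one' := huniq 1 1 (by
        have : rm (1 : B) x - (1 : ℤ) • x = 0 := by
          funext j
          change x j * single (1 : B) 1 - (1 : ℤ) • x j = 0
          rw [← one_def, mul_one, one_smul, sub_self]
        rw [this]
        exact AddSubgroup.zero_mem _)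
      map_mul' := fun g h => huniq (g * h) (u g * u h) (by
        have h4 := rm_cob Y h (hu g)
        have h5 := AddSubgroup.zsmul_mem _ (hu h) (u g)
        have h6 := AddSubgroup.add_mem _ h4 h5
        have h7 : rm h (rm g x - u g • x) + u g • (rm h x - u h • x) =
            rm (g * h) x - (u g * u h) • x := by
          funext j
          change (x j * single g 1 - u g • x j) * single h 1 + u g • (x j * single h 1 - u h • x j) =
            x j * single (g * h) 1 - (u g * u h) • x j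
          rw [sub_mul, mul_assoc, single_mul_single, mul_one, smul_sub, smul_mul_assoc, smul_smul]
          abel
        rw [h7] at h6
        exact h6) }
  refine ⟨w, fun j => tw w (x j), ?_, ?_, ?_, ?_⟩
  · rw [tw_vecMul_cd]
    simp only [tw_tw]
    rw [hxz]
    funext i
    exact tw_zero w
  · intro a ha
    refine h1 a ?_
    have h4 := bd_cob Y w ha
    have h5 : (fun j => tw w ((a • fun j => tw w (x j)) j)) = a • x := by
      funext j
      change twA w (a • tw w (x j)) = a • x j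
      rw [map_zsmul, twA_apply, tw_tw]
    rwa [h5] at h4
  · intro v hv
    obtain ⟨a, ha⟩ := h2 (fun j => tw w (v j)) (by
      rw [tw_vecMul_cd] at hv
      funext i
      have := congrFun hv i
      exact tw_inj w (this.trans (tw_zero w).symm))
    refine ⟨a, ?_⟩
    have h4 := cob_bd Y w ha
    have h5 : (fun j => tw w (((fun j => tw w (v j)) - a • x) j)) =
        v - a • fun j => tw w (x j) := by
      funext j
      change twA w (tw w (v j) - a • x j) = v j - a • tw w (x j)
      rw [map_sub, map_zsmul, twA_apply, tw_tw]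
      rfl
    rwa [h5] at h4
  · intro g
    have h4 := cob_bd Y w (hu g⁻¹)
    have h5 := Submodule.smul_mem (bd Y w N) ((w g : ℤ) : MonoidAlgebra ℤ B) h4
    have e1 : ∀ j, (rm g⁻¹ x - u g⁻¹ • x) j = x j * single g⁻¹ 1 - w g⁻¹ • x j := fun _ => rfl
    have e2 : ∀ j, ((w g : ℤ) : MonoidAlgebra ℤ B) * tw w (x j * single g⁻¹ 1 - w g⁻¹ • x j) =
        single g 1 * tw w (x j) - tw w (x j) := by
      intro j
      have e3 : tw w (x j * single g⁻¹ 1 - w g⁻¹ • x j) =
          tw w (x j * single g⁻¹ 1) - w g⁻¹ • tw w (x j) := by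
        rw [← twA_apply, map_sub, map_zsmul]
        rfl
      rw [e3, tw_mul, tw_single, inv_inv, int_hom_inv, one_mul, ← zsmul_eq_mul, smul_sub,
        smul_smul, int_hom_sq, one_smul, ← smul_mul_assoc, smul_single, smul_eq_mul, int_hom_sq]
    have h6 : ((w g : ℤ) : MonoidAlgebra ℤ B) • (fun j => tw w ((rm g⁻¹ x - u g⁻¹ • x) j)) =
        (single g 1 : MonoidAlgebra ℤ B) • (fun j => tw w (x j)) - fun j => tw w (x j) := by
      funext j
      rw [Pi.smul_apply, smul_eq_mul, e1, e2]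
      rfl
    rwa [h6] at h5

end

end Pool.Agent.Helper6K1.ZM
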