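import Pool.Agent.Helper6K1.ZM.PD

/-!
Poincaré duality: the comparison of a finite free resolution with its dual complex.
-/

set_option autoImplicit false
set_option linter.unusedSectionVars false

open scoped Matrix

namespace Pool.Agent.Helper6K1.ZM

open Pool.Agent.H919R4.ZS MonoidAlgebra Pool.Agent.TH38.ZT Pool.Agent.R807.ZK

noncomputable section

variable {B : Type} [Group B] (Y : FinRes B) (w : B →* ℤ)

/-- a splitting beyond the degree `N` -/
lemma exists_split {N : ℕ} (hc : ∀ k, N < k → Subsingleton (Y.cohomology k)) :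
    ∃ σ : Matrix (Fin (Y.n (N + 1))) (Fin (Y.n N)) (MonoidAlgebra ℤ B),
      cd Y w N * σ * cd Y w N = cd Y w N := by
  have key : ∀ m k : ℕ, Y.len ≤ k + m → N ≤ k →
      ∃ σ : Matrix (Fin (Y.n (k + 1))) (Fin (Y.n k)) (MonoidAlgebra ℤ B),
        cd Y w k * σ * cd Y w k = cd Y w k := by
    intro m
    induction m with
    | zero =>
      intro k hk _
      have h0 : Y.n (k + 1) = 0 := Y.n_eq_zero (k + 1) (by omega)
      refine ⟨0, ?_⟩
      refine Matrix.ext fun i j => ?_
      exact (Fin.cast h0 j).elim0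
    | succ m ih =>
      intro k hk hN
      obtain ⟨σ, hσ⟩ := ih (k + 1) (by omega) (by omega)
      obtain ⟨ρ, hρ⟩ := exists_rows (cd Y w k) (1 - cd Y w (k + 1) * σ) (fun i => by
        refine (mem_bd_succ Y w).1 (ex_of Y w (hc (k + 1) (by omega)) ?_)
        have h1 : (1 - cd Y w (k + 1) * σ) * cd Y w (k + 1) = 0 := by
          rw [Matrix.sub_mul, Matrix.one_mul, hσ, sub_self]
        have h2 := congrFun h1 i
        rw [Matrix.mul_apply_eq_vecMul] at h2
        exact h2)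
      refine ⟨ρ, ?_⟩
      rw [Matrix.mul_assoc, hρ, Matrix.mul_sub, Matrix.mul_one, ← Matrix.mul_assoc, cd_cd,
        Matrix.zero_mul, sub_zero]
  exact key Y.len N (by omega) le_rfl

/-- the extended class map -/
theorem exists_theta {N : ℕ} (hc : ∀ k, N < k → Subsingleton (Y.cohomology k))
    (x : Fin (Y.n N) → MonoidAlgebra ℤ B) (hx : x ᵥ* cd Y w N = 0)
    (h1 : ∀ a : ℤ, a • x ∈ bd Y w N → a = 0)
    (h2 : ∀ v, v ᵥ* cd Y w N = 0 → ∃ a : ℤ, v - a • x ∈ bd Y w N)
    (h3 : ∀ g : B, (single g 1 : MonoidAlgebra ℤ B) • x - x ∈ bd Y w N) :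
    (∀ r : MonoidAlgebra ℤ B, r • x - augm B r • x ∈ bd Y w N) ∧
    ∃ θ : (Fin (Y.n N) → MonoidAlgebra ℤ B) → ℤ, (∀ u v, θ (u + v) = θ u + θ v) ∧
      (∀ (r : MonoidAlgebra ℤ B) v, θ (r • v) = augm B r * θ v) ∧
      (∀ v, v ∈ bd Y w N → θ v = 0) ∧ θ x = 1 := by
  have haug : ∀ r : MonoidAlgebra ℤ B, r • x - augm B r • x ∈ bd Y w N := by
    intro r
    refine induction_linear r ?_ ?_ ?_
    · rw [zero_smul, map_zero, zero_smul, sub_self]
      exact Submodule.zero_mem _
    · intro a b ha hb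
      have : (a + b) • x - augm B (a + b) • x = (a • x - augm B a • x) + (b • x - augm B b • x) := by
        rw [add_smul, map_add, add_smul]; abel
      rw [this]
      exact Submodule.add_mem _ ha hb
    · intro g c
      have h4 : (single g c : MonoidAlgebra ℤ B) • x - augm B (single g c) • x =
          ((c : ℤ) : MonoidAlgebra ℤ B) • ((single g 1 : MonoidAlgebra ℤ B) • x - x) := by
        have h5 : (single g c : MonoidAlgebra ℤ B) = ((c : ℤ) : MonoidAlgebra ℤ B) * single g 1 := by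
          rw [← zsmul_eq_mul, smul_single, smul_eq_mul, mul_one]
        rw [smul_sub, smul_smul, ← h5, augm_single, Int.cast_smul_eq_zsmul]
      rw [h4]
      exact Submodule.smul_mem _ _ (h3 g)
  refine ⟨haug, ?_⟩
  obtain ⟨σ, hσ⟩ := exists_split Y w hc
  set P : Matrix (Fin (Y.n N)) (Fin (Y.n N)) (MonoidAlgebra ℤ B) := 1 - cd Y w N * σ with hP
  have hPc : ∀ v, (v ᵥ* P) ᵥ* cd Y w N = 0 := by
    intro v
    rw [Matrix.vecMul_vecMul, hP, Matrix.sub_mul, Matrix.one_mul, hσ, sub_self, Matrix.vecMul_zero]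
  have hPf : ∀ v, v ᵥ* cd Y w N = 0 → v ᵥ* P = v := by
    intro v hv
    rw [hP, Matrix.vecMul_sub, Matrix.vecMul_one, ← Matrix.vecMul_vecMul, hv, Matrix.zero_vecMul,
      sub_zero]
  choose θ hθ using fun v => h2 (v ᵥ* P) (hPc v)
  have huniq : ∀ v (a : ℤ), v ᵥ* P - a • x ∈ bd Y w N → θ v = a := by
    intro v a ha
    have h4 := Submodule.sub_mem _ ha (hθ v)
    have h5 : v ᵥ* P - a • x - (v ᵥ* P - θ v • x) = (θ v - a) • x := by
      rw [sub_smul]; abel
    rw [h5] at h4
    have := h1 _ h4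
    omega
  refine ⟨θ, ?_, ?_, ?_, ?_⟩
  · intro u v
    refine huniq _ _ ?_
    have : (u + v) ᵥ* P - (θ u + θ v) • x = (u ᵥ* P - θ u • x) + (v ᵥ* P - θ v • x) := by
      rw [Matrix.add_vecMul, add_smul]; abel
    rw [this]
    exact Submodule.add_mem _ (hθ u) (hθ v)
  · intro r v
    refine huniq _ _ ?_
    have h4 : (r • v) ᵥ* P - (augm B r * θ v) • x = r • (v ᵥ* P - θ v • x) +
        ((θ v : ℤ) : MonoidAlgebra ℤ B) • (r • x - augm B r • x) := by
      rw [Matrix.smul_vecMul, smul_sub, smul_sub, Int.cast_smul_eq_zsmul, Int.cast_smul_eq_zsmul,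
        smul_comm r (θ v) x, smul_smul, mul_comm (θ v)]
      abel
    rw [h4]
    exact Submodule.add_mem _ (Submodule.smul_mem _ _ (hθ v)) (Submodule.smul_mem _ _ (haug r))
  · intro v hv
    refine huniq _ _ ?_
    rw [hPf v (bd_cocycle Y w hv), zero_smul, sub_zero]
    exact hv
  · refine huniq _ _ ?_
    rw [hPf x hx, one_smul, sub_self]
    exact Submodule.zero_mem _

/-- The chain equivalence. -/
theorem exists_equiv {N : ℕ} (hc : ∀ k, k ≠ N → Subsingleton (Y.cohomology k))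
    (x : Fin (Y.n N) → MonoidAlgebra ℤ B)
    (haug : ∀ r : MonoidAlgebra ℤ B, r • x - augm B r • x ∈ bd Y w N)
    (θ : (Fin (Y.n N) → MonoidAlgebra ℤ B) → ℤ) (hadd : ∀ u v, θ (u + v) = θ u + θ v)
    (hsm : ∀ (r : MonoidAlgebra ℤ B) v, θ (r • v) = augm B r * θ v)
    (hbd : ∀ v, v ∈ bd Y w N → θ v = 0) (hθx : θ x = 1) :
    ∃ (F : ∀ m k, Matrix (Fin (Y.n m)) (Fin (Y.n k)) (MonoidAlgebra ℤ B))
      (K : ∀ m k, Matrix (Fin (Y.n k)) (Fin (Y.n m)) (MonoidAlgebra ℤ B))
      (H : ∀ m, Matrix (Fin (Y.n m)) (Fin (Y.n (m + 1))) (MonoidAlgebra ℤ B)),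
      (∀ m k, m + k + 1 = N → Y.d m * F m (k + 1) = F (m + 1) k * cd Y w k) ∧
      (∀ m k, k + 1 + m = N → cd Y w k * K m (k + 1) = K (m + 1) k * Y.d m) ∧
      ∀ m, (if m + 1 ≤ N then F (m + 1) (N - (m + 1)) * K (m + 1) (N - (m + 1)) else 0) - 1 =
        Y.d m * H m + H (m + 1) * Y.d (m + 1) := by
  classical
  obtain ⟨x0, hx0⟩ := Y.surj
  change eps Y x0 = 1 at hx0
  have hzero : θ 0 = 0 := hbd 0 (Submodule.zero_mem _)
  have hsum : ∀ {ι : Type} (s : Finset ι) (f : ι → Fin (Y.n N) → MonoidAlgebra ℤ B),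
      θ (∑ i ∈ s, f i) = ∑ i ∈ s, θ (f i) := by
    intro ι s f
    induction s using Finset.induction_on with
    | empty => rw [Finset.sum_empty, Finset.sum_empty, hzero]
    | insert a s ha ih => rw [Finset.sum_insert ha, Finset.sum_insert ha, hadd, ih]
  -- the maps `F`
  obtain ⟨F, hF0, hF⟩ := dep_seq
    (α := fun m => {F : ∀ k, Matrix (Fin (Y.n m)) (Fin (Y.n k)) (MonoidAlgebra ℤ B) //
      ∀ k, m + k = N → ∀ i, (Y.d m * F k) i ∈ bd Y w k})
    (fun m F F' => ∀ k, m + k + 1 = N → Y.d m * F.1 (k + 1) = F'.1 k * cd Y w k)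
    ⟨fun k => if h : k = N then
        Matrix.of fun j => Y.aug j • (fun l => x (Fin.cast (congrArg Y.n h) l)) else 0, by
      intro k hk i
      have hk' : k = N := by omega
      subst hk'
      refine Eq.mpr (congrArg (fun M : Matrix (Fin (Y.n 0)) (Fin (Y.n k)) (MonoidAlgebra ℤ B) =>
        (Y.d 0 * M) i ∈ bd Y w k) (dif_pos rfl)) ?_
      rw [Matrix.mul_apply_eq_vecMul]
      have h1 : Y.d 0 i ᵥ* (Matrix.of fun j => Y.aug j • (fun l => x (Fin.cast rfl l))) =
          ∑ j, ((Y.aug j : ℤ) : MonoidAlgebra ℤ B) • (Y.d 0 i j • x - augm B (Y.d 0 i j) • x) := by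
        have h2 := eps_row Y i
        have h3 : ∑ j, ((Y.aug j : ℤ) : MonoidAlgebra ℤ B) • (augm B (Y.d 0 i j) • x) = 0 := by
          have h4 : ∀ j, ((Y.aug j : ℤ) : MonoidAlgebra ℤ B) • (augm B (Y.d 0 i j) • x) =
              (augm B (Y.d 0 i j) * Y.aug j) • x := by
            intro j
            rw [Int.cast_smul_eq_zsmul, smul_smul, mul_comm]
          rw [Finset.sum_congr rfl fun j _ => h4 j, ← Finset.sum_smul, h2, zero_smul]
        simp only [smul_sub, Finset.sum_sub_distrib]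
        rw [h3, sub_zero]
        funext l
        rw [Finset.sum_apply]
        change ∑ j, Y.d 0 i j * (Y.aug j • x l) = _
        refine Finset.sum_congr rfl fun j _ => ?_
        change Y.d 0 i j * (Y.aug j • x l) = ((Y.aug j : ℤ) : MonoidAlgebra ℤ B) * (Y.d 0 i j * x l)
        rw [mul_smul_comm, zsmul_eq_mul]
      have h5 := h1.symm ▸ (bd Y w k).sum_mem (t := Finset.univ) fun j _ =>
        (bd Y w k).smul_mem ((Y.aug j : ℤ) : MonoidAlgebra ℤ B) (haug (Y.d 0 i j))
      exact h5⟩ (by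
    rintro m ⟨F, hF⟩
    have h1 : ∀ k, ∃ M : Matrix (Fin (Y.n (m + 1))) (Fin (Y.n k)) (MonoidAlgebra ℤ B),
        m + k + 1 = N → Y.d m * F (k + 1) = M * cd Y w k := by
      intro k
      by_cases h : m + k + 1 = N
      · obtain ⟨M, hM⟩ := exists_rows (cd Y w k) (Y.d m * F (k + 1)) fun i =>
          (mem_bd_succ Y w).1 (hF (k + 1) (by omega) i)
        exact ⟨M, fun _ => hM.symm⟩
      · exact ⟨0, fun h' => absurd h' h⟩
    choose F' hF' using h1
    refine ⟨⟨F', ?_⟩, hF'⟩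
    intro k hk i
    refine ex_of Y w (hc k (by omega)) ?_
    rw [← Matrix.mul_apply_eq_vecMul, Matrix.mul_assoc, ← hF' k (by omega), ← Matrix.mul_assoc,
      d_mul_d, Matrix.zero_mul]
    rfl)
  -- the maps `K`
  obtain ⟨K, hK0, hK⟩ := dep_seq
    (α := fun m => {K : ∀ k, Matrix (Fin (Y.n k)) (Fin (Y.n m)) (MonoidAlgebra ℤ B) //
      ∀ k, k + 1 + m = N → ∀ i, ∃ y, y ᵥ* Y.d m = (cd Y w k * K (k + 1)) i})
    (fun m K K' => ∀ k, k + 1 + m = N → cd Y w k * K.1 (k + 1) = K'.1 k * Y.d m)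
    ⟨fun k => if h : k = N then
        Matrix.of fun j => θ (Pi.single (Fin.cast (congrArg Y.n h) j) 1) • x0 else 0, by
      intro k hk i
      have hk' : k + 1 = N := by omega
      subst hk'
      refine Eq.mpr (congrArg (fun M : Matrix (Fin (Y.n (k + 1))) (Fin (Y.n 0)) (MonoidAlgebra ℤ B) =>
        ∃ y, y ᵥ* Y.d 0 = (cd Y w k * M) i) (dif_pos rfl)) ?_
      refine (Y.exact_zero _).1 ?_
      change eps Y _ = 0
      rw [Matrix.mul_apply_eq_vecMul, eps_vecMul]
      have h1 : ∀ l, eps Y ((Matrix.of fun j => θ (Pi.single (Fin.cast rfl j) 1) • x0) l) =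
          θ (Pi.single l 1) := by
        intro l
        change eps Y (θ (Pi.single l 1) • x0) = _
        rw [eps_zsmul, hx0, mul_one]
      rw [Finset.sum_congr rfl fun l _ => by rw [h1 l, ← hsm], ← hsum]
      have h2 : ∑ l, cd Y w k i l • (Pi.single l 1 : Fin (Y.n (k + 1)) → MonoidAlgebra ℤ B) =
          cd Y w k i := by
        funext l
        rw [Finset.sum_apply, Finset.sum_eq_single l]
        · rw [Pi.smul_apply, Pi.single_eq_same, smul_eq_mul, mul_one]
        · intro b _ hb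
          rw [Pi.smul_apply, Pi.single_eq_of_ne (Ne.symm hb), smul_zero]
        · intro h; exact absurd (Finset.mem_univ l) h
      rw [h2]
      refine hbd _ ⟨Pi.single i 1, ?_⟩
      change (Pi.single i 1) ᵥ* cd Y w k = _
      rw [Matrix.single_one_vecMul]
      rfl⟩ (by
    rintro m ⟨K, hK⟩
    have h1 : ∀ k, ∃ M : Matrix (Fin (Y.n k)) (Fin (Y.n (m + 1))) (MonoidAlgebra ℤ B),
        k + 1 + m = N → cd Y w k * K (k + 1) = M * Y.d m := by
      intro k
      by_cases h : k + 1 + m = N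
      · obtain ⟨M, hM⟩ := exists_rows (Y.d m) (cd Y w k * K (k + 1)) fun i => hK k h i
        exact ⟨M, fun _ => hM.symm⟩
      · exact ⟨0, fun h' => absurd h' h⟩
    choose K' hK' using h1
    refine ⟨⟨K', ?_⟩, hK'⟩
    intro k hk i
    refine (Y.exact_succ m _).1 ?_
    rw [← Matrix.mul_apply_eq_vecMul, Matrix.mul_assoc, ← hK' (k + 1) (by omega),
      ← Matrix.mul_assoc, cd_cd, Matrix.zero_mul]
    rfl)
  -- the homotopy
  set P : ∀ m, Matrix (Fin (Y.n m)) (Fin (Y.n m)) (MonoidAlgebra ℤ B) := fun m =>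
    if m ≤ N then (F m).1 (N - m) * (K m).1 (N - m) else 0 with hPdef
  have hP : ∀ m, Y.d m * P m = P (m + 1) * Y.d m := by
    intro m
    rcases lt_trichotomy m N with h | h | h
    · obtain ⟨k, hk⟩ : ∃ k, N = m + k + 1 := ⟨N - m - 1, by omega⟩
      have e1 : N - m = k + 1 := by omega
      have e2 : N - (m + 1) = k := by omega
      simp only [hPdef]
      rw [if_pos h.le, if_pos (by omega), e1, e2, ← Matrix.mul_assoc, hF m k (by omega),
        Matrix.mul_assoc, hK m k (by omega), ← Matrix.mul_assoc]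
    · subst h
      simp only [hPdef]
      rw [if_pos le_rfl, if_neg (by omega), Matrix.zero_mul, Nat.sub_self, ← Matrix.mul_assoc]
      have h1 : Y.d m * (F m).1 0 = 0 := by
        refine Matrix.ext fun i j => ?_
        have h2 := (F m).2 0 (by omega) i
        have h3 : (Y.d m * (F m).1 0) i = 0 := h2
        rw [h3]
        rfl
      rw [h1, Matrix.zero_mul]
    · simp only [hPdef]
      rw [if_neg (by omega), if_neg (by omega), Matrix.mul_zero, Matrix.zero_mul]
  have hP0 : ∀ k, eps Y (P 0 k) = 1 * Y.aug k := by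
    intro k
    simp only [hPdef]
    rw [if_pos (Nat.zero_le _), Nat.sub_zero, Matrix.mul_apply_eq_vecMul, eps_vecMul]
    have h1 : (K 0).1 N = Matrix.of fun j => θ (Pi.single j 1) • x0 := by
      rw [hK0]
      change (if h : N = N then _ else _) = _
      rw [dif_pos rfl]
      rfl
    have h2 : (F 0).1 N = Matrix.of fun j => Y.aug j • x := by
      rw [hF0]
      change (if h : N = N then _ else _) = _
      rw [dif_pos rfl]
      rfl
    rw [h1, h2]
    have h3 : ∀ l, eps Y ((Matrix.of fun j => θ (Pi.single j 1) • x0) l) = θ (Pi.single l 1) := by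
      intro l
      change eps Y (θ (Pi.single l 1) • x0) = _
      rw [eps_zsmul, hx0, mul_one]
    rw [Finset.sum_congr rfl fun l _ => by rw [h3 l, ← hsm], ← hsum]
    have h4 : ∑ l, (Matrix.of fun j => Y.aug j • x : Matrix (Fin (Y.n 0)) (Fin (Y.n N)) _) k l •
        (Pi.single l 1 : Fin (Y.n N) → MonoidAlgebra ℤ B) =
          ((Y.aug k : ℤ) : MonoidAlgebra ℤ B) • x := by
      funext l
      rw [Finset.sum_apply, Finset.sum_eq_single l]
      · rw [Pi.smul_apply, Pi.single_eq_same, smul_eq_mul, mul_one]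
        change (Y.aug k • x) l = _
        rw [Pi.smul_apply, Pi.smul_apply, smul_eq_mul, zsmul_eq_mul]
      · intro b _ hb
        rw [Pi.smul_apply, Pi.single_eq_of_ne (Ne.symm hb), smul_zero]
      · intro h; exact absurd (Finset.mem_univ l) h
    rw [h4, hsm, hθx, mul_one, one_mul]
    exact map_intCast (augm B) _
  have hhom : ∃ h : ∀ i, Matrix (Fin (Y.n i)) (Fin (Y.n (i + 1))) (MonoidAlgebra ℤ B),
      P 0 - 1 = h 0 * Y.d 0 ∧ ∀ i, P (i + 1) - 1 = Y.d i * h i + h (i + 1) * Y.d (i + 1) :=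
    exists_homotopy Y P (fun k => by rw [hP0, one_mul]) hP
  obtain ⟨H, -, hH⟩ := hhom
  exact ⟨fun m => (F m).1, fun m => (K m).1, H, hF, hK, hH⟩

end

end Pool.Agent.Helper6K1.ZM
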