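import Pool.Agent.Helper6K1.ZM.Ext

/-!
Finite dimensional rational homology of the kernel.
-/

set_option autoImplicit false
set_option linter.unusedSectionVars false

open scoped Matrix

namespace Pool.Agent.Helper6K1.ZM

open Pool.Agent.H919R4.ZS MonoidAlgebra Pool.Agent.TH38.ZT Pool.Agent.R807.ZK
open Pool.Agent.H496R3.ZS (IsAmenable)

noncomputable section

variable {G Q : Type} [Group G] [Group Q]

/-- `ℚ[Q] → ℂ[Q]` -/
def cpx (Q : Type) [Group Q] : MonoidAlgebra ℚ Q →+* MonoidAlgebra ℂ Q :=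
  MonoidAlgebra.mapRingHom Q (algebraMap ℚ ℂ)

lemma cpx_single (q : Q) (c : ℚ) : cpx Q (single q c) = single q (c : ℂ) := by
  rw [cpx, MonoidAlgebra.mapRingHom_single]
  rfl

lemma toC_cpx (a : MonoidAlgebra ℤ Q) : toC (cpx Q (rat Q a)) = toRed Q a := by
  have h : (toC.comp ((cpx Q).comp (rat Q)) : MonoidAlgebra ℤ Q →+* RedC Q) = toRed Q := by
    refine hom_ext_single fun g => ?_
    rw [RingHom.comp_apply, RingHom.comp_apply, rat_single, cpx_single]
    refine valR_inj ?_
    rw [valR_toC, LC_single, coe_toRed, L_single]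
    simp
  exact DFunLike.congr_fun h a

lemma cpx_smul (r : ℚ) (a : MonoidAlgebra ℚ Q) : cpx Q (r • a) = (r : ℂ) • cpx Q a := by
  refine induction_linear a ?_ ?_ ?_
  · rw [smul_zero, map_zero, smul_zero]
  · intro x y hx hy
    rw [smul_add, map_add, map_add, smul_add, hx, hy]
  · intro q c
    rw [smul_single, cpx_single, cpx_single, smul_single, smul_eq_mul, smul_eq_mul]
    push_cast
    rfl

/-- The homology `H_q(ℚ[Q] ⊗_{ℤ[G]} X)` has finite dimension over `ℚ`: there are finitely many chains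
`c_1, …, c_m` such that every cycle is, up to a boundary, a linear combination of them with
rational coefficients. -/
def FinDim (X : FinRes G) (φ : MonoidAlgebra ℤ G →+* MonoidAlgebra ℚ Q) (q : ℕ) : Prop :=
  ∃ (m : ℕ) (c : Fin m → Fin (X.n q) → MonoidAlgebra ℚ Q), ∀ z ∈ X.cyc φ q,
    ∃ r : Fin m → ℚ, z - ∑ i, r i • c i ∈ LinearMap.range (X.del φ q)

/-- annihilators modulo the boundaries have finite codimension and generate the unit ideal -/
theorem null_of_finite (hna : (1 : RedC Q) ∈ Submodule.span (RedC Q)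
      (Set.range fun g : Q => (1 : RedC Q) - toRed Q (single g 1)))
    (X : FinRes G) (π : MonoidAlgebra ℤ G →+* MonoidAlgebra ℤ Q) (r : ℕ)
    (hfin : FinDim X ((rat Q).comp π) (r + 1)) :
    NullAt X π (toRed Q) r := by
  obtain ⟨nn, cc, hcc⟩ := hfin
  intro z hz
  have mm : ∀ {a b : ℕ} (M : Matrix (Fin a) (Fin b) (MonoidAlgebra ℤ G)),
      M.map ((rat Q).comp π) = (M.map π).map (rat Q) := fun M => rfl
  set zq : Fin (X.n (r + 1)) → MonoidAlgebra ℚ Q := fun j => rat Q (z j) with hzq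
  have hzc : zq ∈ X.cyc ((rat Q).comp π) (r + 1) := by
    change zq ᵥ* (X.d r).map ((rat Q).comp π) = 0
    rw [mm, hzq, ← vmap, hz]
    funext j
    exact map_zero _
  let Bq : Submodule ℚ (Fin (X.n (r + 1)) → MonoidAlgebra ℚ Q) :=
    (LinearMap.range (X.del ((rat Q).comp π) (r + 1))).restrictScalars ℚ
  let φ : MonoidAlgebra ℚ Q →ₗ[ℚ] ((Fin (X.n (r + 1)) → MonoidAlgebra ℚ Q) ⧸ Bq) :=
    Bq.mkQ.comp
      ({ toFun := fun a => a • zq
         map_add' := fun a b => add_smul a b zq
         map_smul' := fun c a => smul_assoc c a zq } :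
        MonoidAlgebra ℚ Q →ₗ[ℚ] (Fin (X.n (r + 1)) → MonoidAlgebra ℚ Q))
  have hφ : ∀ a, φ a = 0 → ∃ y, y ᵥ* (X.d (r + 1)).map ((rat Q).comp π) = a • zq := by
    intro a ha
    have h1 : (Submodule.Quotient.mk (a • zq) :
        (Fin (X.n (r + 1)) → MonoidAlgebra ℚ Q) ⧸ Bq) = 0 := ha
    rw [Submodule.Quotient.mk_eq_zero] at h1
    obtain ⟨y, hy⟩ := h1
    exact ⟨y, hy⟩
  -- the set of annihilators
  set A : Set (MonoidAlgebra ℤ Q) := {a | ∃ w, w ᵥ* (X.d (r + 1)).map π = a • z} with hA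
  have hker : ∀ a, φ a = 0 → cpx Q a ∈ Submodule.span ℂ ((fun a => cpx Q (rat Q a)) '' A) := by
    intro a ha
    obtain ⟨y, hy⟩ := hφ a ha
    obtain ⟨c, hc, y', hy'⟩ := clear y
    obtain ⟨e, he, a', ha'⟩ := clear1 a
    have hm : c * e ≠ 0 := mul_ne_zero hc he
    have h2 : c • a' ∈ A := by
      refine ⟨e • y', ?_⟩
      funext j
      refine rat_inj ?_
      have h3 : rat Q (((e • y') ᵥ* (X.d (r + 1)).map π) j) =
          ((fun i => rat Q ((e • y') i)) ᵥ* ((X.d (r + 1)).map π).map (rat Q)) j := by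
        rw [← vmap]
      rw [h3]
      have h4 : (fun i => rat Q ((e • y') i)) = e • c • y := by
        funext i
        rw [Pi.smul_apply, Pi.smul_apply, Pi.smul_apply, map_zsmul, hy' i]
      rw [h4, Matrix.smul_vecMul, Matrix.smul_vecMul, ← mm, hy]
      change e • c • (a * rat Q (z j)) = rat Q (c • a' * z j)
      rw [map_mul, map_zsmul, ha', smul_mul_assoc, smul_mul_assoc, smul_comm]
    have h5 : cpx Q a = ((c * e : ℤ) : ℂ)⁻¹ • cpx Q (rat Q (c • a')) := by
      rw [map_zsmul, ha', smul_smul, ← Int.cast_smul_eq_zsmul ℚ, cpx_smul, smul_smul]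
      push_cast
      rw [inv_mul_cancel₀ (by exact_mod_cast hm), one_smul]
    rw [h5]
    exact Submodule.smul_mem _ _ (Submodule.subset_span ⟨_, h2, rfl⟩)
  -- a finite dimensional complement
  have hfr : (LinearMap.range φ).FG := by
    refine Submodule.FG.of_le (T := Submodule.span ℚ (Set.range fun i => Bq.mkQ (cc i)))
      (Submodule.fg_span (Set.finite_range _)) ?_
    rintro _ ⟨a, rfl⟩
    obtain ⟨t, ht⟩ := hcc (a • zq) (Submodule.smul_mem _ a hzc)
    have h2 : φ a = ∑ i, t i • Bq.mkQ (cc i) := by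
      have h3 : Bq.mkQ (a • zq - ∑ i, t i • cc i) = 0 := by
        rw [Submodule.mkQ_apply, Submodule.Quotient.mk_eq_zero]
        exact ht
      rw [map_sub, sub_eq_zero, map_sum] at h3
      refine Eq.trans h3 (Finset.sum_congr rfl fun i _ => ?_)
      rw [map_smul]
    rw [h2]
    exact Submodule.sum_mem _ fun i _ => Submodule.smul_mem _ _ (Submodule.subset_span ⟨i, rfl⟩)
  obtain ⟨s, hs⟩ := hfr
  have hpre : ∀ v : (Fin (X.n (r + 1)) → MonoidAlgebra ℚ Q) ⧸ Bq, v ∈ s → ∃ b, φ b = v := by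
    intro v hv
    have : v ∈ LinearMap.range φ := by
      rw [← hs]; exact Submodule.subset_span hv
    exact this
  choose! b hb using hpre
  have hdec : ∀ a : MonoidAlgebra ℚ Q, ∃ w ∈ Submodule.span ℚ (b '' (s : Set _)), φ (a - w) = 0 := by
    intro a
    have h1 : φ a ∈ Submodule.span ℚ (s : Set _) := by rw [hs]; exact ⟨a, rfl⟩
    have h2 : ∀ v ∈ Submodule.span ℚ (s : Set ((Fin (X.n (r + 1)) → MonoidAlgebra ℚ Q) ⧸ Bq)),
        ∃ w ∈ Submodule.span ℚ (b '' (s : Set _)), φ w = v := by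
      intro v hv
      induction hv using Submodule.span_induction with
      | mem x hx => exact ⟨b x, Submodule.subset_span ⟨x, hx, rfl⟩, hb x hx⟩
      | zero => exact ⟨0, Submodule.zero_mem _, map_zero φ⟩
      | add x y _ _ hx hy =>
        obtain ⟨w, hw, e⟩ := hx
        obtain ⟨w', hw', e'⟩ := hy
        exact ⟨w + w', Submodule.add_mem _ hw hw', by rw [map_add, e, e']⟩
      | smul c x _ hx =>
        obtain ⟨w, hw, e⟩ := hx
        exact ⟨c • w, Submodule.smul_mem _ _ hw, by rw [map_smul, e]⟩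
    obtain ⟨w, hw, e⟩ := h2 _ h1
    exact ⟨w, hw, by rw [map_sub, e, sub_self]⟩
  let W : Submodule ℂ (MonoidAlgebra ℂ Q) := Submodule.span ℂ ((fun x => cpx Q (b x)) '' (s : Set _))
  have : FiniteDimensional ℂ W :=
    FiniteDimensional.span_of_finite ℂ (s.finite_toSet.image _)
  have hWr : ∀ w ∈ Submodule.span ℚ (b '' (s : Set _)), cpx Q w ∈ W := by
    intro w hw
    induction hw using Submodule.span_induction with
    | mem x hx =>
      obtain ⟨y, hy, rfl⟩ := hx
      exact Submodule.subset_span ⟨y, hy, rfl⟩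
    | zero => rw [map_zero]; exact W.zero_mem
    | add x y _ _ hx hy => rw [map_add]; exact W.add_mem hx hy
    | smul c x _ hx => rw [cpx_smul]; exact W.smul_mem _ hx
  have hW : ∀ a : MonoidAlgebra ℂ Q, ∃ w ∈ W,
      a - w ∈ Submodule.span ℂ ((fun a => cpx Q (rat Q a)) '' A) := by
    intro a
    refine induction_linear a ?_ ?_ ?_
    · exact ⟨0, W.zero_mem, by rw [sub_zero]; exact Submodule.zero_mem _⟩
    · rintro x y ⟨w, hw, e⟩ ⟨w', hw', e'⟩
      refine ⟨w + w', W.add_mem hw hw', ?_⟩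
      have : x + y - (w + w') = (x - w) + (y - w') := by abel
      rw [this]
      exact Submodule.add_mem _ e e'
    · intro g c
      obtain ⟨w, hw, e⟩ := hdec (single g 1)
      refine ⟨c • cpx Q w, W.smul_mem _ (hWr w hw), ?_⟩
      have h1 : (single g c : MonoidAlgebra ℂ Q) = c • cpx Q (single g 1) := by
        rw [cpx_single, smul_single, smul_eq_mul, Rat.cast_one, mul_one]
      rw [h1, ← smul_sub, ← map_sub]
      exact Submodule.smul_mem _ _ (hker _ e)
  have hfinal := one_mem (G := Q) (by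
    have h1 : (fun g : Q => (1 : RedC Q) - toRed Q (single g 1)) =
        fun g : Q => (1 : RedC Q) - toC (single g 1) := by
      funext g
      rw [← toC_cpx, rat_single, cpx_single]
      simp
    rw [← h1]
    exact hna) ((fun a => cpx Q (rat Q a)) '' A) W hW
  rw [Set.image_image] at hfinal
  have h6 : (fun a => toC (cpx Q (rat Q a))) '' A = toRed Q '' A := by
    refine Set.image_congr fun a _ => toC_cpx a
  rwa [h6] at hfinal

end

end Pool.Agent.Helper6K1.ZM
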