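import Pool.Agent.Helper6K1.ZM.Op

/-!
The anti-automorphism of `C*_r(G)` given by the adjoint and a character with values `±1`.
-/

set_option autoImplicit false
set_option linter.unusedSectionVars false

open scoped Matrix ENNReal InnerProductSpace
open Filter Topology

namespace Pool.Agent.Helper6K1.ZM

open Pool.Agent.H496R3.ZS (Ell dl dl_apply permIso orthonormal_dl)
open Pool.Agent.H919R4.ZS
open Pool.Agent.TH38.ZT
open MonoidAlgebra (single)

noncomputable section

variable {G : Type} [Group G]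

lemma int_hom_sq (w : G →* ℤ) (g : G) : w g * w g = 1 := by
  have h1 : w g * w g⁻¹ = 1 := by rw [← map_mul, mul_inv_cancel, map_one]
  rcases Int.isUnit_iff.1 (IsUnit.of_mul_eq_one _ h1) with h | h <;> rw [h] <;> rfl

lemma int_hom_inv (w : G →* ℤ) (g : G) : w g⁻¹ = w g := by
  have h1 : w g * w g⁻¹ = 1 := by rw [← map_mul, mul_inv_cancel, map_one]
  have h2 := int_hom_sq w g
  have h3 : w g ≠ 0 := by
    intro h
    rw [h] at h2
    norm_num at h2
  exact mul_left_cancel₀ h3 (h1.trans h2.symm)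

/-- the anti-automorphism `g ↦ w(g) g⁻¹` of the integral group ring -/
def twR (w : G →* ℤ) : MonoidAlgebra ℤ G →+* (MonoidAlgebra ℤ G)ᵐᵒᵖ :=
  (MonoidAlgebra.lift ℤ (MonoidAlgebra ℤ G)ᵐᵒᵖ G
    { toFun := fun g => MulOpposite.op (single g⁻¹ (w g))
      map_one' := by
        rw [inv_one, map_one]
        rfl
      map_mul' := fun g h => by
        rw [← MulOpposite.op_mul, MonoidAlgebra.single_mul_single, mul_inv_rev, map_mul,
          mul_comm (w g)] }).toRingHom

/-- the anti-automorphism `g ↦ w(g) g⁻¹` of the integral group ring -/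
def tw (w : G →* ℤ) (a : MonoidAlgebra ℤ G) : MonoidAlgebra ℤ G := (twR w a).unop

lemma tw_add (w : G →* ℤ) (a b : MonoidAlgebra ℤ G) : tw w (a + b) = tw w a + tw w b := by
  rw [tw, map_add]; rfl

lemma tw_zero (w : G →* ℤ) : tw w (0 : MonoidAlgebra ℤ G) = 0 := by
  rw [tw, map_zero]; rfl

lemma tw_mul (w : G →* ℤ) (a b : MonoidAlgebra ℤ G) : tw w (a * b) = tw w b * tw w a := by
  rw [tw, map_mul]; rfl

lemma tw_single (w : G →* ℤ) (g : G) (c : ℤ) : tw w (single g c) = single g⁻¹ (c * w g) := by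
  rw [tw, twR]
  change (MonoidAlgebra.lift ℤ (MonoidAlgebra ℤ G)ᵐᵒᵖ G _ (single g c)).unop = _
  rw [MonoidAlgebra.lift_single]
  change (c • single g⁻¹ (w g) : MonoidAlgebra ℤ G) = _
  rw [MonoidAlgebra.smul_single, smul_eq_mul]

lemma tw_tw (w : G →* ℤ) (a : MonoidAlgebra ℤ G) : tw w (tw w a) = a := by
  refine MonoidAlgebra.induction_linear a ?_ ?_ ?_
  · rw [tw_zero, tw_zero]
  · intro x y hx hy
    rw [tw_add, tw_add, hx, hy]
  · intro g c
    rw [tw_single, tw_single, inv_inv, int_hom_inv, mul_assoc, int_hom_sq, mul_one]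

/-- multiplication by the character -/
def mw (w : G →* ℤ) : L2 G →L[ℂ] L2 G := mulB (fun q => ((w q : ℤ) : ℂ)) (fun q => by
  rcases Int.isUnit_iff.1 (IsUnit.of_mul_eq_one _ (int_hom_sq w q)) with h | h <;> rw [h] <;> simp)

lemma mw_mw (w : G →* ℤ) (v : L2 G) : mw w (mw w v) = v := by
  ext q
  change ((w q : ℤ) : ℂ) * (((w q : ℤ) : ℂ) * v q) = v q
  rw [← mul_assoc, ← Int.cast_mul, int_hom_sq, Int.cast_one, one_mul]

/-- the anti-automorphism of the bounded operators -/
def PhiR (w : G →* ℤ) : (L2 G →L[ℂ] L2 G) →+* (L2 G →L[ℂ] L2 G)ᵐᵒᵖ where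
  toFun T := MulOpposite.op (mw w * ContinuousLinearMap.adjoint T * mw w)
  map_one' := by
    have h1 : ContinuousLinearMap.adjoint (1 : L2 G →L[ℂ] L2 G) = 1 := star_one _
    rw [h1, mul_one]
    have h2 : mw w * mw w = 1 := ContinuousLinearMap.ext fun v => mw_mw w v
    rw [h2]
    rfl
  map_mul' S T := by
    have h1 : ContinuousLinearMap.adjoint (S * T) =
      ContinuousLinearMap.adjoint T * ContinuousLinearMap.adjoint S := star_mul _ _
    have h2 : mw w * mw w = 1 := ContinuousLinearMap.ext fun v => mw_mw w v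
    rw [h1, ← MulOpposite.op_mul]
    congr 1
    calc mw w * (ContinuousLinearMap.adjoint T * ContinuousLinearMap.adjoint S) * mw w
        = mw w * ContinuousLinearMap.adjoint T * 1 * ContinuousLinearMap.adjoint S * mw w := by
          rw [mul_one, ← mul_assoc]
      _ = _ := by rw [← h2]; simp only [mul_assoc]
  map_zero' := by
    rw [map_zero, mul_zero, zero_mul]
    rfl
  map_add' S T := by
    rw [map_add, mul_add, add_mul]
    rfl

/-- the anti-automorphism of the bounded operators -/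
def Phi (w : G →* ℤ) (T : L2 G →L[ℂ] L2 G) : L2 G →L[ℂ] L2 G :=
  mw w * ContinuousLinearMap.adjoint T * mw w

lemma Phi_single (w : G →* ℤ) (c : ℂ) (g : G) :
    Phi w (c • lregL g) = LC (single g⁻¹ ((starRingEnd ℂ) c * ((w g : ℤ) : ℂ))) := by
  have h1 : ContinuousLinearMap.adjoint (c • lregL g : L2 G →L[ℂ] L2 G) =
      (starRingEnd ℂ) c • lregL g⁻¹ := by
    symm
    rw [ContinuousLinearMap.eq_adjoint_iff]
    intro v u
    rw [smul_apply, smul_apply, inner_smul_left, inner_smul_right, inner_lregL_inv,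
      starRingEnd_self_apply]
  rw [Phi, h1, LC_single]
  refine ContinuousLinearMap.ext fun v => ?_
  ext q
  change ((w q : ℤ) : ℂ) * ((starRingEnd ℂ) c * (((w (g⁻¹⁻¹ * q) : ℤ) : ℂ) * v (g⁻¹⁻¹ * q))) =
    ((starRingEnd ℂ) c * ((w g : ℤ) : ℂ)) * v (g⁻¹⁻¹ * q)
  have h2 : ((w q : ℤ) : ℂ) * ((w (g⁻¹⁻¹ * q) : ℤ) : ℂ) = ((w g : ℤ) : ℂ) := by
    rw [inv_inv, map_mul, ← Int.cast_mul]
    congr 1
    calc w q * (w g * w q) = w g * (w q * w q) := by ring
      _ = w g := by rw [int_hom_sq, mul_one]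
  rw [← h2]
  ring

lemma Phi_mem (w : G →* ℤ) (x : RedC G) :
    Phi w (valR x) ∈ Set.range (valR : RedC G → (L2 G →L[ℂ] L2 G)) := by
  have hcont : Continuous (Phi w) := by
    unfold Phi
    exact (continuous_const.mul ContinuousLinearMap.adjoint.continuous).mul continuous_const
  let K : Subring (L2 G →L[ℂ] L2 G) :=
    { carrier := {T | Phi w T ∈ Set.range (valR : RedC G → (L2 G →L[ℂ] L2 G))}
      mul_mem' := by
        rintro S T ⟨s, hs⟩ ⟨t, ht⟩
        refine ⟨t * s, ?_⟩
        rw [map_mul, hs, ht]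
        exact (congrArg MulOpposite.unop ((PhiR w).map_mul S T)).symm
      one_mem' := ⟨1, by
        rw [map_one]
        exact (congrArg MulOpposite.unop (PhiR w).map_one).symm⟩
      add_mem' := by
        rintro S T ⟨s, hs⟩ ⟨t, ht⟩
        refine ⟨s + t, ?_⟩
        rw [map_add, hs, ht]
        exact (congrArg MulOpposite.unop ((PhiR w).map_add S T)).symm
      zero_mem' := ⟨0, by
        rw [map_zero]
        exact (congrArg MulOpposite.unop (PhiR w).map_zero).symm⟩
      neg_mem' := by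
        rintro S ⟨s, hs⟩
        refine ⟨-s, ?_⟩
        rw [map_neg, hs]
        exact (congrArg MulOpposite.unop ((PhiR w).map_neg S)).symm }
  have hK : IsClosed (K : Set (L2 G →L[ℂ] L2 G)) := isClosed_range_valR.preimage hcont
  have h : (Subtype.val (p := fun y => y ∈ redCstar G) x : Op G) ∈
    closure ((groupRing G : Subring (Op G)) : Set (Op G)) := Subtype.property x
  have h3 : groupRing G ≤ (show Subring (Op G) from K) := by
    refine Subring.closure_le.2 ?_
    rintro _ ⟨c, g, rfl⟩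
    change Phi w (c • lregL g : L2 G →L[ℂ] L2 G) ∈
      Set.range (valR : RedC G → (L2 G →L[ℂ] L2 G))
    rw [Phi_single]
    exact ⟨toC (single g⁻¹ ((starRingEnd ℂ) c * ((w g : ℤ) : ℂ))), valR_toC _⟩
  have h2 : ((groupRing G : Subring (Op G)) : Set (Op G)) ⊆
    (show Set (Op G) from (K : Set (L2 G →L[ℂ] L2 G))) := fun y hy => h3 hy
  have h4 := closure_mono h2 h
  have h5 : IsClosed (show Set (Op G) from (K : Set (L2 G →L[ℂ] L2 G))) := hK
  rw [h5.closure_eq] at h4
  exact h4

/-- The anti-automorphism of `C*_r(G)`. -/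
theorem exists_anti (w : G →* ℤ) : ∃ τ : RedC G → RedC G, (∀ x y, τ (x + y) = τ x + τ y) ∧
    (∀ x y, τ (x * y) = τ y * τ x) ∧ τ 1 = 1 ∧ ∀ a, τ (toRed G a) = toRed G (tw w a) := by
  choose τ hτ using fun x : RedC G => Phi_mem w x
  have hadd : ∀ x y, τ (x + y) = τ x + τ y := by
    intro x y
    refine valR_inj ?_
    rw [map_add, hτ, hτ, hτ, map_add]
    exact (congrArg MulOpposite.unop ((PhiR w).map_add (valR x) (valR y)))
  have hmul : ∀ x y, τ (x * y) = τ y * τ x := by
    intro x y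
    refine valR_inj ?_
    rw [map_mul, hτ, hτ, hτ, map_mul]
    exact (congrArg MulOpposite.unop ((PhiR w).map_mul (valR x) (valR y)))
  refine ⟨τ, hadd, hmul, ?_, ?_⟩
  · refine valR_inj ?_
    rw [hτ, map_one]
    exact (congrArg MulOpposite.unop (PhiR w).map_one)
  · intro a
    refine MonoidAlgebra.induction_linear a ?_ ?_ ?_
    · rw [map_zero, tw_zero, map_zero]
      have := hadd 0 0
      rw [add_zero] at this
      exact left_eq_add.1 this
    · intro x y hx hy
      rw [map_add, hadd, hx, hy, tw_add, map_add]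
    · intro g c
      refine valR_inj ?_
      rw [hτ, tw_single, coe_toRed, coe_toRed, L_single, L_single]
      have h1 : (c • lregL g : L2 G →L[ℂ] L2 G) = ((c : ℤ) : ℂ) • lregL g := by
        rw [Int.cast_smul_eq_zsmul]
      rw [h1, Phi_single, LC_single]
      rw [map_intCast (starRingEnd ℂ) c, ← Int.cast_mul, Int.cast_smul_eq_zsmul]

end

end Pool.Agent.Helper6K1.ZM
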